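import Pool.Graph.R_pool_sql_team_seeded_2aa45f1a.Q231.RS.Vdc2

set_option autoImplicit false

/-!
Differencing with steps which are multiples of an integer `q`, and the sums of a phase whose second
differences are close to, but not too close to, a rational number `a / q`.
-/

namespace Pool.Agent.H73.GS

open Finset
open Pool.Agent.Helper153.Vdc (ee dd Cond w w_sum S T_norm row_le ee_norm ee_mul_conj cond_diff sum_inv_le
  triv_bound)
open Pool.Agent.Q231.RS (good_sum)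

/-- van der Corput's inequality with the steps `q, 2q, …` -/
theorem vdc_step (M N q K : ℕ) (hMN : M ≤ N) (hq : 1 ≤ q) (hK : 1 ≤ K) (hKN : q * K ≤ N) (z : ℕ → ℂ)
    (hz : ∀ n, ‖z n‖ ≤ 1) :
    ‖∑ n ∈ range M, z n‖ ^ 2 ≤ 2 * (N : ℝ) / K * ((N : ℝ) +
      2 * ∑ k ∈ Ico 1 K, ‖∑ n ∈ range (M - q * k), z (n + q * k) * (starRingEnd ℂ) (z n)‖) := by
  have hHr : (0 : ℝ) < K := by exact_mod_cast hK
  set Q : ℝ := ∑ h ∈ Ico 1 K, S M z (q * h) with hQ
  have hQ' : ∑ h ∈ Ico 1 K, ‖∑ n ∈ range (M - q * h), z (n + q * h) * (starRingEnd ℂ) (z n)‖ = Q := rfl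
  rw [hQ']
  have hQ0 : 0 ≤ Q := Finset.sum_nonneg fun h _ => norm_nonneg _
  have hlt : ∀ {j : ℕ}, j ∈ range K → q * j < q * K := by
    intro j hj
    exact Nat.mul_lt_mul_of_pos_left (mem_range.1 hj) (by omega)
  have h1 : (K : ℂ) * ∑ n ∈ range M, z n =
      ∑ m ∈ range (M + q * K), ∑ j ∈ range K, w M z m (q * j) := by
    rw [Finset.sum_comm]
    rw [Finset.sum_congr rfl (fun j hj => w_sum M (q * K) z (hlt hj))]
    simp
  have h2 : (K : ℝ) ^ 2 * ‖∑ n ∈ range M, z n‖ ^ 2 ≤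
      ((M + q * K : ℕ) : ℝ) * ∑ m ∈ range (M + q * K), ‖∑ j ∈ range K, w M z m (q * j)‖ ^ 2 := by
    have e : (K : ℝ) ^ 2 * ‖∑ n ∈ range M, z n‖ ^ 2 =
        ‖∑ m ∈ range (M + q * K), ∑ j ∈ range K, w M z m (q * j)‖ ^ 2 := by
      rw [← h1, norm_mul, Complex.norm_natCast]; ring
    rw [e]
    calc ‖∑ m ∈ range (M + q * K), ∑ j ∈ range K, w M z m (q * j)‖ ^ 2
        ≤ (∑ m ∈ range (M + q * K), ‖∑ j ∈ range K, w M z m (q * j)‖) ^ 2 := by
          gcongr; exact norm_sum_le _ _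
      _ ≤ _ := by
          have := sq_sum_le_card_mul_sum_sq (s := range (M + q * K))
            (f := fun m => ‖∑ j ∈ range K, w M z m (q * j)‖)
          rwa [card_range] at this
  have h3 : ((∑ m ∈ range (M + q * K), ‖∑ j ∈ range K, w M z m (q * j)‖ ^ 2 : ℝ) : ℂ) =
      ∑ j ∈ range K, ∑ j' ∈ range K,
        ∑ m ∈ range (M + q * K), w M z m (q * j) * (starRingEnd ℂ) (w M z m (q * j')) := by
    push_cast
    have : ∀ m, ((‖∑ j ∈ range K, w M z m (q * j)‖ : ℂ)) ^ 2 =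
        ∑ j ∈ range K, ∑ j' ∈ range K, w M z m (q * j) * (starRingEnd ℂ) (w M z m (q * j')) := by
      intro m
      rw [← Complex.mul_conj', map_sum, Finset.sum_mul_sum]
    rw [Finset.sum_congr rfl (fun m _ => this m), Finset.sum_comm]
    apply Finset.sum_congr rfl
    intro j _
    rw [Finset.sum_comm]
  have h4 : ∑ m ∈ range (M + q * K), ‖∑ j ∈ range K, w M z m (q * j)‖ ^ 2 ≤
      (K : ℝ) * ((N : ℝ) + 2 * Q) := by
    have e0 : 0 ≤ ∑ m ∈ range (M + q * K), ‖∑ j ∈ range K, w M z m (q * j)‖ ^ 2 :=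
      Finset.sum_nonneg fun m _ => by positivity
    calc ∑ m ∈ range (M + q * K), ‖∑ j ∈ range K, w M z m (q * j)‖ ^ 2
        = ‖((∑ m ∈ range (M + q * K), ‖∑ j ∈ range K, w M z m (q * j)‖ ^ 2 : ℝ) : ℂ)‖ := by
          rw [Complex.norm_real, Real.norm_of_nonneg e0]
      _ ≤ ∑ j ∈ range K, ∑ j' ∈ range K, S M z (q * ((j - j') + (j' - j))) := by
          rw [h3]
          refine (norm_sum_le _ _).trans (Finset.sum_le_sum fun j hj => ?_)
          refine (norm_sum_le _ _).trans (Finset.sum_le_sum fun j' hj' => ?_)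
          rw [T_norm M (q * K) z (hlt hj) (hlt hj')]
          rw [Nat.mul_add, Nat.mul_sub, Nat.mul_sub]
      _ ≤ ∑ j ∈ range K, (S M z (q * 0) + 2 * Q) := by
          refine Finset.sum_le_sum fun j hj => ?_
          exact row_le (fun h => S M z (q * h)) (fun n => norm_nonneg _) K j (mem_range.1 hj)
      _ = (K : ℝ) * (S M z (q * 0) + 2 * Q) := by rw [Finset.sum_const, card_range, nsmul_eq_mul]
      _ ≤ _ := by
          gcongr
          unfold S
          rw [Nat.mul_zero]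
          calc ‖∑ n ∈ range (M - 0), z (n + 0) * (starRingEnd ℂ) (z n)‖
              ≤ ∑ n ∈ range (M - 0), ‖z (n + 0) * (starRingEnd ℂ) (z n)‖ := norm_sum_le _ _
            _ ≤ ∑ n ∈ range (M - 0), 1 := by
                refine Finset.sum_le_sum fun n _ => ?_
                rw [norm_mul, Complex.norm_conj, add_zero]
                have := hz n
                have h0 := norm_nonneg (z n)
                nlinarith
            _ = (M : ℝ) := by simp
            _ ≤ N := by exact_mod_cast hMN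
  have h5 : ((M + q * K : ℕ) : ℝ) ≤ 2 * N := by
    have : M + q * K ≤ 2 * N := by omega
    exact_mod_cast this
  have h6 : (K : ℝ) ^ 2 * ‖∑ n ∈ range M, z n‖ ^ 2 ≤ 2 * N * ((K : ℝ) * ((N : ℝ) + 2 * Q)) := by
    refine h2.trans ?_
    have hsn : 0 ≤ ∑ m ∈ range (M + q * K), ‖∑ j ∈ range K, w M z m (q * j)‖ ^ 2 :=
      Finset.sum_nonneg fun m _ => by positivity
    exact mul_le_mul h5 h4 hsn (by positivity)
  have h7 : 2 * (N : ℝ) / K * ((N : ℝ) + 2 * Q) =
      (2 * N * ((K : ℝ) * ((N : ℝ) + 2 * Q))) / (K : ℝ) ^ 2 := by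
    field_simp
  rw [h7, le_div_iff₀ (by positivity)]
  linarith

/-- second difference -/
noncomputable def sd (g : ℕ → ℝ) (n : ℕ) : ℝ := (g (n + 2) - g (n + 1)) - (g (n + 1) - g n)

theorem diff_sum (g : ℕ → ℝ) (h n : ℕ) :
    (g (n + 1 + h) - g (n + 1)) - (g (n + h) - g n) = ∑ j ∈ range h, sd g (n + j) := by
  induction h with
  | zero => simp
  | succ h ih =>
    rw [sum_range_succ, ← ih]
    unfold sd
    rw [show n + 1 + (h + 1) = n + h + 2 by ring, show n + (h + 1) = n + h + 1 by ring,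
      show n + 1 + h = n + h + 1 by ring]
    ring

/-- all first differences in `[k + θ, k + 1 - θ)` -/
theorem all_good {g : ℕ → ℝ} {M : ℕ} {lam A : ℝ} (hlam : 0 < lam) (hc : Cond 2 g M lam A) {θ : ℝ}
    (hθ : 0 < θ) (k : ℤ) (hS : ∀ n, n + 1 < M → (k : ℝ) + θ ≤ g (n + 1) - g n ∧
      g (n + 1) - g n < (k : ℝ) + 1 - θ) :
    ‖∑ n ∈ range M, ee (g n)‖ ≤ 2 / θ + 1 := by
  rcases M with _ | M
  · simp; positivity
  · rw [sum_range_succ]
    refine (norm_add_le _ _).trans ?_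
    rw [ee_norm]
    have := good_sum hlam hc hθ k (range M) (by
      intro n
      rw [mem_range]
      constructor
      · intro hn
        exact ⟨by omega, hS n (by omega)⟩
      · intro hn
        omega)
    linarith

/-- the sum of a phase shifted by a multiple `h = q k` of `q` -/
theorem shift_bound {g : ℕ → ℝ} {M : ℕ} {lam A : ℝ} (hlam : 0 < lam) (hc : Cond 3 g M lam A) (a : ℤ)
    (q k : ℕ) (hq : 1 ≤ q) (hk : 1 ≤ k) (x y Θ Θ' : ℝ) (hΘ : 0 < Θ) (hxy : Θ ≤ x ∨ y ≤ -Θ)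
    (hx : -Θ' ≤ x) (hy : y ≤ Θ') (hb : ∀ n, n + 1 < M → x ≤ sd g n - a / q ∧ sd g n - a / q ≤ y)
    (hR : (q * k : ℕ) * Θ' ≤ 1 / 3) :
    ‖∑ n ∈ range (M - q * k), ee (g (n + q * k) - g n)‖ ≤ 4 / ((q * k : ℕ) * Θ) + 1 := by
  have hq0 : (0 : ℝ) < q := by exact_mod_cast hq
  have hk0 : (0 : ℝ) < k := by exact_mod_cast hk
  set h : ℕ := q * k with hh
  have hh1 : 1 ≤ h := Nat.mul_pos hq hk
  have hh0 : (0 : ℝ) < h := by exact_mod_cast hh1
  have hhq : (h : ℝ) = q * k := by rw [hh]; push_cast; ring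
  have hc2 := cond_diff hc hh1
  have hlam' : 0 < (h : ℝ) * lam := by positivity
  -- the first differences
  have hD : ∀ n, n + 1 < M - h → (k * a : ℤ) + h * x ≤ (g (n + 1 + h) - g (n + 1)) - (g (n + h) - g n) ∧
      (g (n + 1 + h) - g (n + 1)) - (g (n + h) - g n) ≤ (k * a : ℤ) + h * y := by
    intro n hn
    rw [diff_sum]
    have e1 : ((k * a : ℤ) : ℝ) = ∑ j ∈ range h, (a : ℝ) / q := by
      rw [sum_const, card_range, nsmul_eq_mul, hhq]
      push_cast
      field_simp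
    have e2 : ∀ z : ℝ, (h : ℝ) * z = ∑ j ∈ range h, z := by
      intro z
      rw [sum_const, card_range, nsmul_eq_mul]
    rw [e1, e2 x, e2 y, ← sum_add_distrib, ← sum_add_distrib]
    constructor
    · apply sum_le_sum
      intro j hj
      rw [mem_range] at hj
      linarith [(hb (n + j) (by omega)).1]
    · apply sum_le_sum
      intro j hj
      rw [mem_range] at hj
      linarith [(hb (n + j) (by omega)).2]
  have hgoal : ∀ θ : ℝ, θ = h * Θ / 2 → 2 / θ + 1 ≤ 4 / ((h : ℝ) * Θ) + 1 := by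
    intro θ hθ
    rw [hθ]
    apply le_of_eq
    field_simp
    ring
  have hΘ' : h * x ≤ h * y → True := fun _ => trivial
  rcases Nat.lt_or_ge 1 (M - h) with hM | hM
  swap
  · -- at most one term
    refine (norm_sum_le _ _).trans ?_
    rw [sum_congr rfl fun n _ => ee_norm _]
    simp only [sum_const, card_range, nsmul_eq_mul, mul_one]
    have h1 : ((M - h : ℕ) : ℝ) ≤ 1 := by exact_mod_cast hM
    have h2 : 0 < 4 / ((h : ℝ) * Θ) := by positivity
    linarith
  have hxy2 : x ≤ y := by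
    have := hb 0 (by omega)
    linarith
  have hhx : -(1 / 3) ≤ h * x := by nlinarith
  have hhy : h * y ≤ 1 / 3 := by nlinarith
  rcases hxy with hxy | hxy
  · have h3 : (h : ℝ) * Θ ≤ h * x := by gcongr
    have h4 : (h : ℝ) * x ≤ h * y := by gcongr
    have h5 : 0 < (h : ℝ) * Θ := by positivity
    refine (all_good hlam' hc2 (θ := h * Θ / 2) (by positivity) (k * a) ?_).trans (hgoal _ rfl)
    intro n hn
    have := hD n hn
    constructor <;> linarith [this.1, this.2]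
  · have h3 : (h : ℝ) * y ≤ h * (-Θ) := by gcongr
    have h4 : (h : ℝ) * x ≤ h * y := by gcongr
    have h5 : 0 < (h : ℝ) * Θ := by positivity
    refine (all_good hlam' hc2 (θ := h * Θ / 2) (by positivity) (k * a - 1) ?_).trans (hgoal _ rfl)
    intro n hn
    have := hD n hn
    push_cast at this ⊢
    constructor <;> linarith [this.1, this.2]

/-- the sum over an interval on which the second differences are between `Θ` and `Θ'` from `a / q` -/
theorem outer {g : ℕ → ℝ} {M L : ℕ} {lam A : ℝ} (hlam : 0 < lam) (hc : Cond 3 g M lam A) (a : ℤ)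
    (q R : ℕ) (hq : 1 ≤ q) (hML : M ≤ L) (hR1 : 1 ≤ R) (hRL : R ≤ L) (x y Θ Θ' : ℝ) (hΘ : 0 < Θ)
    (hΘ' : 0 < Θ') (hxy : Θ ≤ x ∨ y ≤ -Θ) (hx : -Θ' ≤ x) (hy : y ≤ Θ')
    (hb : ∀ n, n + 1 < M → x ≤ sd g n - a / q ∧ sd g n - a / q ≤ y) (hR : R * Θ' ≤ 1 / 3) :
    ‖∑ n ∈ range M, ee (g n)‖ ^ 2 ≤
      12 * q * (L : ℝ) ^ 2 / R + 32 * L * (1 + Real.log L) / (R * Θ) := by
  have hq0 : (0 : ℝ) < q := by exact_mod_cast hq
  have hR0 : (0 : ℝ) < R := by exact_mod_cast hR1
  have hL1 : 1 ≤ L := hR1.trans hRL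
  have hLr : (1 : ℝ) ≤ L := by exact_mod_cast hL1
  have hlog : 0 ≤ Real.log L := Real.log_nonneg hLr
  rcases Nat.lt_or_ge R q with hRq | hRq
  · -- trivial
    have h1 : ‖∑ n ∈ range M, ee (g n)‖ ≤ L :=
      (triv_bound M g).trans (by exact_mod_cast hML)
    have h2 : ‖∑ n ∈ range M, ee (g n)‖ ^ 2 ≤ (L : ℝ) ^ 2 := by gcongr
    have h3 : (R : ℝ) ≤ q := by exact_mod_cast hRq.le
    have h4 : (L : ℝ) ^ 2 ≤ 12 * q * (L : ℝ) ^ 2 / R := by
      rw [le_div_iff₀ hR0]
      nlinarith [sq_nonneg (L : ℝ)]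
    have h5 : 0 ≤ 32 * L * (1 + Real.log L) / (R * Θ) := by positivity
    linarith
  set K : ℕ := R / q with hK
  have hK1 : 1 ≤ K := (Nat.one_le_div_iff (by omega)).2 hRq
  have hK0 : (0 : ℝ) < K := by exact_mod_cast hK1
  have hqK : q * K ≤ R := Nat.mul_div_le R q
  have hKL : K ≤ L := by
    have : K ≤ R := Nat.div_le_self R q
    omega
  have hKR : (R : ℝ) ≤ 2 * q * K := by
    have h1 : R < q * (K + 1) := by
      rw [hK]
      exact Nat.lt_mul_div_succ R (by omega)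
    have h2 : q * (K + 1) ≤ 2 * q * K := by nlinarith
    exact_mod_cast (h1.le.trans h2)
  have h1 := vdc_step M L q K hML hq hK1 (hqK.trans hRL) (fun n => ee (g n)) (fun n => (ee_norm _).le)
  have h2 : ∑ k ∈ Ico 1 K, ‖∑ n ∈ range (M - q * k), ee (g (n + q * k)) * (starRingEnd ℂ) (ee (g n))‖ ≤
      K + 4 / (q * Θ) * (1 + Real.log L) := by
    calc _ ≤ ∑ k ∈ Ico 1 K, (4 / (q * Θ) * (1 / (k : ℝ)) + 1) := by
          apply sum_le_sum
          intro k hk
          rw [mem_Ico] at hk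
          have hk0 : (0 : ℝ) < k := by exact_mod_cast hk.1
          have h3 := shift_bound hlam hc a q k hq hk.1 x y Θ Θ' hΘ hxy hx hy hb (by
            have : ((q * k : ℕ) : ℝ) ≤ R := by
              have : q * k ≤ R := le_trans (Nat.mul_le_mul_left q hk.2.le) hqK
              exact_mod_cast this
            nlinarith)
          have e : ∀ n : ℕ, ee (g (n + q * k)) * (starRingEnd ℂ) (ee (g n)) = ee (g (n + q * k) - g n) :=
            fun n => ee_mul_conj _ _
          simp only [e]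
          refine h3.trans (le_of_eq ?_)
          push_cast
          field_simp
      _ = 4 / (q * Θ) * ∑ k ∈ Ico 1 K, (1 / (k : ℝ)) + ((K - 1 : ℕ) : ℝ) := by
          rw [sum_add_distrib, mul_sum]
          simp
      _ ≤ 4 / (q * Θ) * (1 + Real.log L) + K := by
          have h4 := sum_inv_le hKL
          have h5 : ((K - 1 : ℕ) : ℝ) ≤ K := by exact_mod_cast Nat.sub_le K 1
          gcongr
      _ = _ := add_comm _ _
  have hKLr : (K : ℝ) ≤ L := by exact_mod_cast hKL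
  have hX : 0 ≤ 4 / (q * Θ) * (1 + Real.log L) := by positivity
  calc ‖∑ n ∈ range M, ee (g n)‖ ^ 2 ≤ _ := h1
    _ ≤ 2 * (L : ℝ) / K * ((L : ℝ) + 2 * (K + 4 / (q * Θ) * (1 + Real.log L))) := by gcongr
    _ ≤ 2 * (L : ℝ) / K * (3 * L + 2 * (4 / (q * Θ) * (1 + Real.log L))) := by
        apply mul_le_mul_of_nonneg_left _ (by positivity)
        linarith
    _ = 2 * (L : ℝ) * (3 * L + 2 * (4 / (q * Θ) * (1 + Real.log L))) * (1 / K) := by ring
    _ ≤ 2 * (L : ℝ) * (3 * L + 2 * (4 / (q * Θ) * (1 + Real.log L))) * (2 * q / R) := by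
        have h3 : (1 : ℝ) / K ≤ 2 * q / R := by
          rw [div_le_div_iff₀ hK0 hR0]
          linarith
        gcongr
    _ = _ := by
        field_simp
        ring

/-- the same with the best `R` -/
theorem outer' {g : ℕ → ℝ} {M L : ℕ} {lam A : ℝ} (hlam : 0 < lam) (hc : Cond 3 g M lam A) (a : ℤ)
    (q : ℕ) (hq : 1 ≤ q) (hML : M ≤ L) (hL1 : 1 ≤ L) (x y Θ Θ' : ℝ) (hΘ : 0 < Θ)
    (hΘ' : 0 < Θ') (hxy : Θ ≤ x ∨ y ≤ -Θ) (hx : -Θ' ≤ x) (hy : y ≤ Θ')
    (hb : ∀ n, n + 1 < M → x ≤ sd g n - a / q ∧ sd g n - a / q ≤ y) :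
    ‖∑ n ∈ range M, ee (g n)‖ ^ 2 ≤
      (12 * q * (L : ℝ) ^ 2 + 32 * L * (1 + Real.log L) / Θ) * (1 / L + 6 * Θ') := by
  have hq1 : (1 : ℝ) ≤ q := by exact_mod_cast hq
  have hLr : (1 : ℝ) ≤ L := by exact_mod_cast hL1
  have hL0 : (0 : ℝ) < L := by linarith
  have hlog : 0 ≤ Real.log L := Real.log_nonneg hLr
  rcases lt_or_ge (1 / (3 * Θ')) 1 with h | h
  · -- trivial
    have h0 : 1 < 3 * Θ' := by
      rwa [div_lt_one (by positivity)] at h
    have h1 : ‖∑ n ∈ range M, ee (g n)‖ ≤ L :=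
      (triv_bound M g).trans (by exact_mod_cast hML)
    have h2 : ‖∑ n ∈ range M, ee (g n)‖ ^ 2 ≤ (L : ℝ) ^ 2 := by gcongr
    have h3 : 0 ≤ 32 * L * (1 + Real.log L) / Θ := by positivity
    have h4 : (L : ℝ) ^ 2 ≤ 12 * q * (L : ℝ) ^ 2 := by nlinarith [sq_nonneg (L : ℝ)]
    have h5 : 1 ≤ 1 / L + 6 * Θ' := by
      have : 0 < 1 / (L : ℝ) := by positivity
      linarith
    calc _ ≤ (L : ℝ) ^ 2 * 1 := by linarith
      _ ≤ _ := by
        apply mul_le_mul _ h5 zero_le_one (by positivity)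
        linarith
  · set R : ℕ := min L ⌊1 / (3 * Θ')⌋₊ with hR
    have hfl : 1 ≤ ⌊1 / (3 * Θ')⌋₊ := by
      rw [Nat.one_le_floor_iff]
      exact h
    have hR1 : 1 ≤ R := le_min hL1 hfl
    have hR0 : (0 : ℝ) < R := by exact_mod_cast hR1
    have hRL : R ≤ L := min_le_left _ _
    have hRΘ : R * Θ' ≤ 1 / 3 := by
      have h1 : (R : ℝ) ≤ ⌊1 / (3 * Θ')⌋₊ := by exact_mod_cast min_le_right _ _
      have h2 : ((⌊1 / (3 * Θ')⌋₊ : ℕ) : ℝ) ≤ 1 / (3 * Θ') := Nat.floor_le (by positivity)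
      calc R * Θ' ≤ 1 / (3 * Θ') * Θ' := by gcongr; exact h1.trans h2
        _ = 1 / 3 := by field_simp
    have hRinv : 1 / (R : ℝ) ≤ 1 / L + 6 * Θ' := by
      have h6 : 0 < 6 * Θ' := by positivity
      have h7 : 0 < 1 / (L : ℝ) := by positivity
      rcases le_total L ⌊1 / (3 * Θ')⌋₊ with h1 | h1
      · have : R = L := min_eq_left h1
        rw [this]
        linarith
      · have h2 : R = ⌊1 / (3 * Θ')⌋₊ := min_eq_right h1
        have h3 : 1 / (3 * Θ') < (R : ℝ) + 1 := by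
          rw [h2]
          exact Nat.lt_floor_add_one _
        have h4 : (1 : ℝ) ≤ R := by exact_mod_cast hR1
        have h5 : 1 / (R : ℝ) ≤ 6 * Θ' := by
          rw [div_le_iff₀ hR0]
          rw [div_lt_iff₀ (by positivity)] at h3
          nlinarith
        linarith
    have h1 := outer hlam hc a q R hq hML hR1 hRL x y Θ Θ' hΘ hΘ' hxy hx hy hb hRΘ
    refine h1.trans ?_
    have e : 12 * q * (L : ℝ) ^ 2 / R + 32 * L * (1 + Real.log L) / (R * Θ) =
        (12 * q * (L : ℝ) ^ 2 + 32 * L * (1 + Real.log L) / Θ) * (1 / R) := by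
      field_simp
    rw [e]
    gcongr

end Pool.Agent.H73.GS
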