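import Pool.Agent.H73.GS.A

set_option autoImplicit false

/-!
The sum of a phase whose second difference is near a rational number of small denominator.
-/

namespace Pool.Agent.H73.GS

open Finset
open Pool.Agent.Helper153.Vdc (ee dd Cond ee_norm triv_bound)
open Pool.Agent.Q231.RS (card_spread)

theorem dd_shift (k : ℕ) : ∀ (g : ℕ → ℝ) (m n : ℕ), dd k (fun n => g (m + n)) n = dd k g (m + n) := by
  induction k with
  | zero => intro g m n; rfl
  | succ k ih =>
    intro g m n
    show dd k (fun n => g (m + (n + 1)) - g (m + n)) n = dd k (fun n => g (n + 1) - g n) (m + n)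
    have := ih (fun n => g (n + 1) - g n) m n
    rw [← this]
    rfl

theorem cond_shift {k : ℕ} {g : ℕ → ℝ} {M : ℕ} {lam A : ℝ} (hc : Cond k g M lam A) (m : ℕ) :
    Cond k (fun n => g (m + n)) (M - m) lam A := by
  refine ⟨fun n hn => ?_, fun n hn => ?_⟩
  · rw [dd_shift]
    exact hc.1 (m + n) (by omega)
  · rw [dd_shift]
    exact hc.2 (m + n) (by omega)

theorem cond_mono {k : ℕ} {g : ℕ → ℝ} {M M' : ℕ} {lam A : ℝ} (hc : Cond k g M lam A) (h : M' ≤ M) :
    Cond k g M' lam A :=
  ⟨fun n hn => hc.1 n (by omega), fun n hn => hc.2 n (by omega)⟩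

/-- the second differences increase -/
theorem sd_bd {g : ℕ → ℝ} {L : ℕ} {lam A : ℝ} (hc : Cond 3 g (L + 3) lam A) :
    ∀ i j : ℕ, i ≤ j → j ≤ L → ((j : ℝ) - i) * lam ≤ sd g j - sd g i ∧
      sd g j - sd g i ≤ ((j : ℝ) - i) * (A * lam) := by
  intro i j hij
  induction j, hij using Nat.le_induction with
  | base => intro _; simp
  | succ j hij ih =>
    intro hj
    obtain ⟨h1, h2⟩ := ih (by omega)
    have h3 := hc.1 j (by omega)
    simp only [dd] at h3
    unfold sd at h1 h2 ⊢
    push_cast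
    constructor
    · linarith [h3.1]
    · linarith [h3.2]

/-- an initial segment -/
theorem cut (L : ℕ) (P : ℕ → Prop) (hP : ∀ i j, i ≤ j → j < L → P j → P i) :
    ∃ n₁ ≤ L, ∀ n < L, (P n ↔ n < n₁) := by
  classical
  have hex : ∃ n, n = L ∨ ¬ P n := ⟨L, Or.inl rfl⟩
  refine ⟨Nat.find hex, Nat.find_min' hex (Or.inl rfl), ?_⟩
  intro n hn
  constructor
  · intro hPn
    by_contra h
    push Not at h
    rcases Nat.find_spec hex with h1 | h1
    · omega
    · exact h1 (hP _ n h hn hPn)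
  · intro h
    have := Nat.find_min hex h
    push Not at this
    exact this.2

theorem caseB {g : ℕ → ℝ} {L : ℕ} {lam A : ℝ} (hlam : 0 < lam) (hA : 1 ≤ A)
    (hc : Cond 3 g (L + 3) lam A) (hL : 1 ≤ L) (a : ℤ) (q H : ℕ) (hq : 1 ≤ q) (hH : 1 ≤ H)
    (happ : |sd g 0 - a / q| ≤ 1 / (2 * q * H)) (Y : ℝ) (hY : 1 ≤ Y) (hYL : Y ≤ L) :
    ‖∑ n ∈ range L, ee (g n)‖ ^ 2 ≤ 3456 * A * (1 + Real.log L) *
      (q * L + q * (L : ℝ) ^ 3 * lam + (L : ℝ) ^ 2 / H + 1 / (Y * lam) + (L : ℝ) ^ 2 / Y + Y ^ 2) := by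
  have hq1 : (1 : ℝ) ≤ q := by exact_mod_cast hq
  have hq0 : (0 : ℝ) < q := by linarith
  have hH1 : (1 : ℝ) ≤ H := by exact_mod_cast hH
  have hH0 : (0 : ℝ) < H := by linarith
  have hLr : (1 : ℝ) ≤ L := by exact_mod_cast hL
  have hL0 : (0 : ℝ) < L := by linarith
  have hlog : 0 ≤ Real.log L := Real.log_nonneg hLr
  set lg : ℝ := 1 + Real.log L with hlg
  have hlg1 : 1 ≤ lg := by linarith
  set x0 : ℝ := sd g 0 - a / q with hx0
  set ω : ℝ := A * L * lam with hω
  have hω0 : 0 < ω := by positivity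
  -- the second differences
  have hb0 : ∀ n ≤ L, x0 ≤ sd g n - a / q ∧ sd g n - a / q ≤ x0 + ω := by
    intro n hn
    obtain ⟨h1, h2⟩ := sd_bd hc 0 n (Nat.zero_le n) hn
    have hnr : (n : ℝ) ≤ L := by exact_mod_cast hn
    have h3 : 0 ≤ ((n : ℝ) - (0 : ℕ)) * lam := by
      simp only [Nat.cast_zero, sub_zero]; positivity
    have h4 : ((n : ℝ) - (0 : ℕ)) * (A * lam) ≤ ω := by
      simp only [Nat.cast_zero, sub_zero]
      rw [hω]
      calc (n : ℝ) * (A * lam) ≤ L * (A * lam) := by gcongr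
        _ = _ := by ring
    constructor
    · linarith
    · linarith
  have hYlam : 0 < Y * lam := by positivity
  have hLY : (L : ℝ) ≤ (L : ℝ) ^ 2 / Y := by
    rw [le_div_iff₀ (by linarith)]
    nlinarith
  have t1 : 0 ≤ q * (L : ℝ) := by positivity
  have t2 : 0 ≤ q * (L : ℝ) ^ 3 * lam := by positivity
  have t3 : 0 ≤ (L : ℝ) ^ 2 / H := by positivity
  have t4 : 0 ≤ 1 / (Y * lam) := by positivity
  have t5 : 0 ≤ (L : ℝ) ^ 2 / Y := by positivity
  have t6 : 0 ≤ Y ^ 2 := by positivity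
  have hAlg : 1 ≤ A * lg := by nlinarith
  rcases le_or_gt (2 * ω) |x0| with hx | hx
  · -- `a / q` is far from the second differences
    have hxp : 0 < |x0| := by linarith
    have h1 := outer' (M := L) (L := L) hlam (cond_mono hc (by omega)) a q hq le_rfl hL x0 (x0 + ω)
      (|x0| / 2) (2 * |x0|) (by positivity) (by positivity) (by
        rcases le_total 0 x0 with h | h
        · left
          rw [abs_of_nonneg h]
          linarith
        · right
          rw [abs_of_nonpos h] at hx ⊢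
          linarith) (by
        have := neg_abs_le x0
        linarith) (by
        have := le_abs_self x0
        linarith) (fun n hn => hb0 n (by omega))
    refine h1.trans ?_
    have e : (12 * q * (L : ℝ) ^ 2 + 32 * L * lg / (|x0| / 2)) * (1 / L + 6 * (2 * |x0|)) =
        12 * (q * L) + 144 * q * (L : ℝ) ^ 2 * |x0| + 64 * lg * (1 / |x0|) + 768 * lg * L := by
      field_simp
      ring
    rw [e]
    have h2 : 144 * q * (L : ℝ) ^ 2 * |x0| ≤ 72 * ((L : ℝ) ^ 2 / H) := by
      calc 144 * q * (L : ℝ) ^ 2 * |x0| ≤ 144 * q * (L : ℝ) ^ 2 * (1 / (2 * q * H)) := by gcongr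
        _ = _ := by field_simp; ring
    have h3 : 1 / |x0| ≤ 1 / (Y * lam) := by
      apply one_div_le_one_div_of_le hYlam
      calc Y * lam ≤ L * lam := by gcongr
        _ = 1 * (L * lam) := by ring
        _ ≤ (2 * A) * (L * lam) := by
            gcongr
            linarith
        _ = 2 * ω := by rw [hω]; ring
        _ ≤ _ := hx
    calc _ ≤ 12 * (q * L) + 72 * ((L : ℝ) ^ 2 / H) + 64 * lg * (1 / (Y * lam)) +
          768 * lg * ((L : ℝ) ^ 2 / Y) := by gcongr
      _ ≤ (3456 * (A * lg)) * (q * L) + (3456 * (A * lg)) * ((L : ℝ) ^ 2 / H) +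
          (3456 * (A * lg)) * (1 / (Y * lam)) + (3456 * (A * lg)) * ((L : ℝ) ^ 2 / Y) := by
          have a1 : (12 : ℝ) ≤ 3456 * (A * lg) := by linarith
          have a2 : (72 : ℝ) ≤ 3456 * (A * lg) := by linarith
          have a0 : lg ≤ A * lg := by nlinarith
          have a3 : 64 * lg ≤ 3456 * (A * lg) := by linarith
          have a4 : 768 * lg ≤ 3456 * (A * lg) := by linarith
          gcongr
      _ = 3456 * A * lg * (q * L + (L : ℝ) ^ 2 / H + 1 / (Y * lam) + (L : ℝ) ^ 2 / Y) := by ring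
      _ ≤ _ := by
          apply mul_le_mul_of_nonneg_left _ (by positivity)
          linarith
  · -- near
    set Θ : ℝ := Y * lam with hΘ
    have hx1 := neg_abs_le x0
    have hx2 := le_abs_self x0
    have hmono : ∀ i j, i ≤ j → j ≤ L → sd g i ≤ sd g j := by
      intro i j hij hj
      have h1 := (sd_bd hc i j hij hj).1
      have h2 : (0 : ℝ) ≤ ((j : ℝ) - i) * lam := by
        have : (i : ℝ) ≤ j := by exact_mod_cast hij
        exact mul_nonneg (by linarith) hlam.le
      linarith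
    obtain ⟨n1, hn1L, hn1⟩ := cut L (fun n => sd g n - a / q < -Θ) (by
      intro i j hij hj h
      have := hmono i j hij hj.le
      linarith)
    obtain ⟨n2, hn2L, hn2⟩ := cut L (fun n => sd g n - a / q ≤ Θ) (by
      intro i j hij hj h
      have := hmono i j hij hj.le
      linarith)
    have hn12 : n1 ≤ n2 := by
      by_contra h
      push Not at h
      have h1 := (hn1 n2 (by omega)).2 h
      have h2 : ¬ (sd g n2 - a / q ≤ Θ) := by
        rw [hn2 n2 (by omega)]
        exact lt_irrefl _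
      apply h2
      linarith
    -- the three pieces
    have hp1 := outer' (g := g) (M := n1) (L := L) hlam (cond_mono hc (by omega)) a q hq hn1L hL x0 (-Θ)
      Θ (3 * ω) hYlam (by positivity) (Or.inr le_rfl) (by linarith) (by linarith) (by
        intro n hn
        have h1 := hb0 n (by omega)
        have h2 := (hn1 n (by omega)).2 (by omega)
        exact ⟨h1.1, h2.le⟩)
    have hp3 := outer' (g := fun n => g (n2 + n)) (M := L - n2) (L := L) hlam
      (cond_mono (cond_shift hc n2) (by omega)) a q hq (by omega) hL Θ (max Θ (x0 + ω))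
      Θ (max Θ (3 * ω)) hYlam (lt_max_of_lt_left hYlam) (Or.inl le_rfl)
      (by
        have := le_max_left Θ (3 * ω)
        linarith)
      (max_le_max le_rfl (by linarith)) (by
        intro n hn
        have h1 := hb0 (n2 + n) (by omega)
        have h2 : ¬ (sd g (n2 + n) - a / q ≤ Θ) := by
          rw [hn2 (n2 + n) (by omega)]
          omega
        push Not at h2
        have e : sd (fun n => g (n2 + n)) n = sd g (n2 + n) := by
          unfold sd
          rfl
        rw [e]
        exact ⟨h2.le, h1.2.trans (le_max_right _ _)⟩)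
    have hp2 : ‖∑ n ∈ Ico n1 n2, ee (g n)‖ ≤ 2 * Y + 1 := by
      refine (norm_sum_le _ _).trans ?_
      rw [sum_congr rfl fun n _ => ee_norm _]
      simp only [sum_const, nsmul_eq_mul, mul_one]
      apply card_spread (by positivity)
      intro i hi j hj hij
      rw [mem_Ico] at hi hj
      have h1 := (sd_bd hc i j hij (by omega)).1
      have h2 : ¬ (sd g i - a / q < -Θ) := by
        rw [hn1 i (by omega)]
        omega
      have h3 := (hn2 j (by omega)).2 hj.2
      push Not at h2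
      have h4 : ((j : ℝ) - i) * lam ≤ (2 * Y) * lam := by
        have : 2 * Y * lam = 2 * Θ := by rw [hΘ]; ring
        linarith
      exact le_of_mul_le_mul_right h4 hlam
    have hsplit : ∑ n ∈ range L, ee (g n) = ∑ n ∈ range n1, ee (g n) + ∑ n ∈ Ico n1 n2, ee (g n) +
        ∑ n ∈ range (L - n2), ee (g (n2 + n)) := by
      rw [range_eq_Ico, range_eq_Ico, ← sum_Ico_consecutive _ (Nat.zero_le n1) (hn12.trans hn2L),
        ← sum_Ico_consecutive _ hn12 hn2L, add_assoc, ← range_eq_Ico]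
      rw [sum_Ico_eq_sum_range (fun n => ee (g n)) n2 L]
    set P1 : ℝ := ‖∑ n ∈ range n1, ee (g n)‖ with hP1
    set P2 : ℝ := ‖∑ n ∈ Ico n1 n2, ee (g n)‖ with hP2
    set P3 : ℝ := ‖∑ n ∈ range (L - n2), ee (g (n2 + n))‖ with hP3
    have hS : ‖∑ n ∈ range L, ee (g n)‖ ≤ P1 + P2 + P3 := by
      rw [hsplit]
      refine (norm_add_le _ _).trans ?_
      have := norm_add_le (∑ n ∈ range n1, ee (g n)) (∑ n ∈ Ico n1 n2, ee (g n))
      linarith
    have hS2 : ‖∑ n ∈ range L, ee (g n)‖ ^ 2 ≤ 3 * (P1 ^ 2 + P2 ^ 2 + P3 ^ 2) := by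
      have h0 := norm_nonneg (∑ n ∈ range L, ee (g n))
      have h1 : ‖∑ n ∈ range L, ee (g n)‖ ^ 2 ≤ (P1 + P2 + P3) ^ 2 := by gcongr
      nlinarith [sq_nonneg (P1 - P2), sq_nonneg (P2 - P3), sq_nonneg (P1 - P3)]
    have hY2 : (2 * Y + 1) ^ 2 ≤ 9 * Y ^ 2 := by nlinarith
    have hP2' : P2 ^ 2 ≤ 9 * Y ^ 2 := by
      have : P2 ^ 2 ≤ (2 * Y + 1) ^ 2 := by
        have := norm_nonneg (∑ n ∈ Ico n1 n2, ee (g n))
        gcongr
      linarith
    -- the common bound of the outer pieces
    have hmax : max Θ (3 * ω) ≤ 3 * ω := by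
      apply max_le _ le_rfl
      calc Θ = Y * lam := rfl
        _ ≤ L * lam := by gcongr
        _ = 1 * (L * lam) := by ring
        _ ≤ (3 * A) * (L * lam) := by
            gcongr
            linarith
        _ = 3 * ω := by rw [hω]; ring
    set E : ℝ := (12 * q * (L : ℝ) ^ 2 + 32 * L * lg / Θ) * (1 / L + 6 * (3 * ω)) with hE
    have hp3' : P3 ^ 2 ≤ E := by
      refine hp3.trans ?_
      rw [hE]
      gcongr
    have hEe : E = 12 * (q * L) + 216 * A * (q * (L : ℝ) ^ 3 * lam) + 32 * lg * (1 / (Y * lam)) +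
        576 * A * lg * ((L : ℝ) ^ 2 / Y) := by
      rw [hE, hω, hΘ]
      field_simp
      ring
    calc ‖∑ n ∈ range L, ee (g n)‖ ^ 2 ≤ 3 * (P1 ^ 2 + P2 ^ 2 + P3 ^ 2) := hS2
      _ ≤ 3 * (E + 9 * Y ^ 2 + E) := by
          have : P1 ^ 2 ≤ E := hp1
          linarith
      _ = 72 * (q * L) + (1296 * A) * (q * (L : ℝ) ^ 3 * lam) + (192 * lg) * (1 / (Y * lam)) +
          (3456 * A * lg) * ((L : ℝ) ^ 2 / Y) + 27 * Y ^ 2 := by
          rw [hEe]; ring
      _ ≤ (3456 * A * lg) * (q * L) + (3456 * A * lg) * (q * (L : ℝ) ^ 3 * lam) +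
          (3456 * A * lg) * (1 / (Y * lam)) + (3456 * A * lg) * ((L : ℝ) ^ 2 / Y) +
          (3456 * A * lg) * Y ^ 2 := by
          have a0 : lg ≤ A * lg := by nlinarith
          have a1 : (72 : ℝ) ≤ 3456 * A * lg := by nlinarith
          have a2 : 1296 * A ≤ 3456 * A * lg := by nlinarith
          have a3 : 192 * lg ≤ 3456 * A * lg := by nlinarith
          have a5 : (27 : ℝ) ≤ 3456 * A * lg := by nlinarith
          gcongr
      _ = 3456 * A * lg * (q * L + q * (L : ℝ) ^ 3 * lam + 1 / (Y * lam) + (L : ℝ) ^ 2 / Y + Y ^ 2) := by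
          ring
      _ ≤ _ := by
          apply mul_le_mul_of_nonneg_left _ (by positivity)
          linarith

end Pool.Agent.H73.GS
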