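import Pool.Agent.H73.GS.B

set_option autoImplicit false

/-!
Sums over separated points, and the sum of a phase whose second difference has no rational
approximation of small denominator.
-/

namespace Pool.Agent.H73.GS

open Finset
open Pool.Agent.Helper153.Vdc (ee dd Cond ee_norm triv_bound cond_diff vdc_ineq')
open Pool.Agent.Q231.RS (card_spread vdc_two)
open Pool.Agent.W186.EH (VB)

/-- **separated points**: if the numbers `d i ∈ [-1/2, 1/2]` have mutual distances at least `δ`, and
`T i ≤ M`, `T i |d i| ≤ B`, then `∑ T i ≤ 2 M + (2 B / δ) (1 + log J)`, `1 ≤ J δ`. -/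
theorem sep_sum {ι : Type*} (s : Finset ι) (d T : ι → ℝ) (δ M B : ℝ) (J : ℕ) (hδ : 0 < δ)
    (hJ : 1 ≤ J * δ) (hM : 0 ≤ M) (hB : 0 ≤ B) (hd : ∀ i ∈ s, |d i| ≤ 1 / 2)
    (hsep : ∀ i ∈ s, ∀ j ∈ s, i ≠ j → δ ≤ |d i - d j|) (hT1 : ∀ i ∈ s, T i ≤ M)
    (hT2 : ∀ i ∈ s, T i * |d i| ≤ B) :
    ∑ i ∈ s, T i ≤ 2 * M + 2 * B / δ * (1 + Real.log J) := by
  classical
  have hJ0 : 0 < J := by
    rcases Nat.eq_zero_or_pos J with h | h
    · rw [h] at hJ; simp at hJ; linarith
    · exact h
  set c : ι → ℤ := fun i => ⌊d i / δ⌋ with hc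
  have hc1 : ∀ i, (c i : ℝ) * δ ≤ d i := by
    intro i
    have := Int.floor_le (d i / δ)
    rwa [le_div_iff₀ hδ] at this
  have hc2 : ∀ i, d i < (c i + 1) * δ := by
    intro i
    have := Int.lt_floor_add_one (d i / δ)
    rwa [div_lt_iff₀ hδ] at this
  have hinj : Set.InjOn c s := by
    intro i hi j hj hij
    by_contra hne
    have h1 := hsep i hi j hj hne
    have h2 := hc1 i
    have h3 := hc2 i
    have h4 := hc1 j
    have h5 := hc2 j
    rw [hij] at h2 h3
    have : |d i - d j| < δ := by
      rw [abs_lt]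
      constructor <;> linarith
    linarith
  have hcJ : ∀ i ∈ s, -(J : ℝ) ≤ c i ∧ (c i : ℝ) ≤ J := by
    intro i hi
    have h1 := abs_le.1 (hd i hi)
    have h2 := hc1 i
    have h3 := hc2 i
    have hJ1 : (1 : ℝ) ≤ J := by exact_mod_cast hJ0
    constructor
    · by_contra h
      push Not at h
      have h4 : (c i : ℤ) < -(J : ℤ) := by exact_mod_cast h
      have h5 : c i + 1 ≤ -(J : ℤ) := by omega
      have h6 : (c i : ℝ) + 1 ≤ -(J : ℝ) := by exact_mod_cast h5
      nlinarith
    · by_contra h
      push Not at h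
      nlinarith
  set s0 := s.filter (fun i => c i = 0 ∨ c i = -1) with hs0
  set s1 := s.filter (fun i => 1 ≤ c i) with hs1
  set s2 := s.filter (fun i => c i ≤ -2) with hs2
  have hsplit : ∑ i ∈ s, T i = ∑ i ∈ s0, T i + ∑ i ∈ s1, T i + ∑ i ∈ s2, T i := by
    have e : s = s0 ∪ s1 ∪ s2 := by
      ext i
      simp only [hs0, hs1, hs2, mem_union, mem_filter]
      constructor
      · intro h
        rcases lt_trichotomy (c i) 0 with h1 | h1 | h1
        · rcases eq_or_lt_of_le (show c i ≤ -1 by omega) with h2 | h2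
          · left; left; exact ⟨h, Or.inr h2⟩
          · right; exact ⟨h, by omega⟩
        · left; left; exact ⟨h, Or.inl h1⟩
        · left; right; exact ⟨h, by omega⟩
      · rintro ((h | h) | h) <;> exact h.1
    have hd1 : Disjoint s0 s1 := by
      rw [disjoint_left]
      intro i h1 h2
      rw [mem_filter] at h1 h2
      omega
    have hd2 : Disjoint (s0 ∪ s1) s2 := by
      rw [disjoint_left]
      intro i h1 h2
      rw [mem_union, mem_filter, mem_filter] at h1
      rw [mem_filter] at h2
      omega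
    conv_lhs => rw [e]
    rw [sum_union hd2, sum_union hd1]
  have hlogJ : ∑ k ∈ Icc 1 J, (1 / (k : ℝ)) ≤ 1 + Real.log J := by
    have h2 : ∑ h ∈ Icc 1 J, (1 / (h : ℝ)) = ((harmonic J : ℚ) : ℝ) := by
      rw [harmonic_eq_sum_Icc]
      push_cast
      exact Finset.sum_congr rfl fun i _ => by rw [one_div]
    rw [h2]
    exact harmonic_le_one_add_log J
  have hBδ : 0 ≤ B / δ := by positivity
  have h0 : ∑ i ∈ s0, T i ≤ 2 * M := by
    have hcard : s0.card ≤ 2 := by
      have h1 : s0.card ≤ ({0, -1} : Finset ℤ).card := by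
        apply card_le_card_of_injOn c
        · intro i hi
          have := (mem_filter.1 hi).2
          simp only [coe_insert, coe_singleton, Set.mem_insert_iff, Set.mem_singleton_iff]
          exact this
        · intro i hi j hj hij
          exact hinj (mem_filter.1 hi).1 (mem_filter.1 hj).1 hij
      exact h1.trans (by decide)
    have h2 := sum_le_card_nsmul s0 T M (fun i hi => hT1 i (mem_filter.1 hi).1)
    rw [nsmul_eq_mul] at h2
    have h3 : (s0.card : ℝ) ≤ 2 := by exact_mod_cast hcard
    nlinarith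
  have h1 : ∑ i ∈ s1, T i ≤ B / δ * (1 + Real.log J) := by
    calc ∑ i ∈ s1, T i ≤ ∑ i ∈ s1, B / δ * (1 / ((c i).toNat : ℝ)) := by
          apply sum_le_sum
          intro i hi
          rw [mem_filter] at hi
          have hci : ((c i).toNat : ℝ) = c i := by
            have : (((c i).toNat : ℤ) : ℝ) = c i := by
              rw [Int.toNat_of_nonneg (by omega)]
            exact_mod_cast this
          have hci1 : (1 : ℝ) ≤ c i := by exact_mod_cast hi.2
          rw [hci]
          have h3 := hc1 i
          have h4 := hT2 i hi.1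
          have h5 : 0 < (c i : ℝ) * δ := by positivity
          have h6 : |d i| = d i := abs_of_pos (by linarith)
          rw [h6] at h4
          have e : B / δ * (1 / (c i : ℝ)) = B / (c i * δ) := by
            field_simp
          rw [e, le_div_iff₀ h5]
          rcases le_or_gt (T i) 0 with h7 | h7
          · exact (mul_nonpos_of_nonpos_of_nonneg h7 h5.le).trans hB
          · exact (mul_le_mul_of_nonneg_left h3 h7.le).trans h4
      _ = ∑ k ∈ s1.image (fun i => (c i).toNat), B / δ * (1 / (k : ℝ)) := by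
          rw [sum_image]
          intro i hi j hj hij
          simp only at hij
          have h3 := (mem_filter.1 hi).2
          have h4 := (mem_filter.1 hj).2
          exact hinj (mem_filter.1 hi).1 (mem_filter.1 hj).1 (by omega)
      _ ≤ ∑ k ∈ Icc 1 J, B / δ * (1 / (k : ℝ)) := by
          apply sum_le_sum_of_subset_of_nonneg
          · intro k hk
            rw [mem_image] at hk
            obtain ⟨i, hi, rfl⟩ := hk
            rw [mem_filter] at hi
            have h3 := (hcJ i hi.1).2
            have h4 : c i ≤ (J : ℤ) := by exact_mod_cast h3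
            rw [mem_Icc]
            omega
          · intro k _ _
            positivity
      _ = B / δ * ∑ k ∈ Icc 1 J, (1 / (k : ℝ)) := by rw [mul_sum]
      _ ≤ _ := by gcongr
  have h2 : ∑ i ∈ s2, T i ≤ B / δ * (1 + Real.log J) := by
    calc ∑ i ∈ s2, T i ≤ ∑ i ∈ s2, B / δ * (1 / ((-c i - 1).toNat : ℝ)) := by
          apply sum_le_sum
          intro i hi
          rw [mem_filter] at hi
          have hci : ((-c i - 1).toNat : ℝ) = -c i - 1 := by
            have : (((-c i - 1).toNat : ℤ) : ℝ) = ((-c i - 1 : ℤ) : ℝ) := by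
              rw [Int.toNat_of_nonneg (by omega)]
            push_cast at this
            exact_mod_cast this
          have hci1 : (1 : ℝ) ≤ -c i - 1 := by
            have : (1 : ℤ) ≤ -c i - 1 := by omega
            exact_mod_cast this
          rw [hci]
          have h3 := hc2 i
          have h4 := hT2 i hi.1
          have h5 : 0 < (-(c i : ℝ) - 1) * δ := by
            apply mul_pos _ hδ
            linarith
          have h6 : |d i| = -d i := abs_of_neg (by nlinarith)
          rw [h6] at h4
          have h7 : (-(c i : ℝ) - 1) * δ ≤ -d i := by nlinarith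
          have e : B / δ * (1 / (-(c i : ℝ) - 1)) = B / ((-(c i : ℝ) - 1) * δ) := by
            have : (-(c i : ℝ) - 1) ≠ 0 := by linarith
            field_simp
          rw [e, le_div_iff₀ h5]
          rcases le_or_gt (T i) 0 with h8 | h8
          · exact (mul_nonpos_of_nonpos_of_nonneg h8 h5.le).trans hB
          · exact (mul_le_mul_of_nonneg_left h7 h8.le).trans h4
      _ = ∑ k ∈ s2.image (fun i => (-c i - 1).toNat), B / δ * (1 / (k : ℝ)) := by
          rw [sum_image]
          intro i hi j hj hij
          simp only at hij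
          have h3 := (mem_filter.1 hi).2
          have h4 := (mem_filter.1 hj).2
          exact hinj (mem_filter.1 hi).1 (mem_filter.1 hj).1 (by omega)
      _ ≤ ∑ k ∈ Icc 1 J, B / δ * (1 / (k : ℝ)) := by
          apply sum_le_sum_of_subset_of_nonneg
          · intro k hk
            rw [mem_image] at hk
            obtain ⟨i, hi, rfl⟩ := hk
            rw [mem_filter] at hi
            have h3 := (hcJ i hi.1).1
            have h4 : -(J : ℤ) ≤ c i := by exact_mod_cast h3
            rw [mem_Icc]
            omega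
          · intro k _ _
            positivity
      _ = B / δ * ∑ k ∈ Icc 1 J, (1 / (k : ℝ)) := by rw [mul_sum]
      _ ≤ _ := by gcongr
  rw [hsplit]
  have e : 2 * B / δ * (1 + Real.log J) = B / δ * (1 + Real.log J) + B / δ * (1 + Real.log J) := by ring
  rw [e]
  linarith

/-- signed distance to the nearest integer -/
noncomputable def di (x : ℝ) : ℝ := x - round x

theorem di_abs (x : ℝ) : |di x| ≤ 1 / 2 := abs_sub_round x

theorem di_le (x : ℝ) (k : ℤ) : |di x| ≤ |x - k| := round_le x k

/-- the multiples of `β` are well separated modulo `1` -/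
theorem di_mul {β : ℝ} {a : ℤ} {q H : ℕ} (hq : 1 ≤ q) (hH : 1 ≤ H) (hcop : IsCoprime a (q : ℤ))
    (happ : |β - a / q| ≤ 1 / (2 * q * H)) (k : ℕ) (hk : 1 ≤ k) (hkq : k < q) (hkH : k ≤ H) :
    1 / (2 * (q : ℝ)) ≤ |di (k * β)| := by
  have hq0 : (0 : ℝ) < q := by exact_mod_cast hq
  have hH0 : (0 : ℝ) < H := by exact_mod_cast hH
  have hk0 : (0 : ℝ) < k := by exact_mod_cast hk
  set n : ℤ := round (k * β) with hn
  have h1 : (1 : ℝ) ≤ |(k : ℝ) * a - n * q| := by
    have h2 : (k : ℤ) * a - n * q ≠ 0 := by
      intro h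
      have h3 : (q : ℤ) ∣ (k : ℤ) * a := ⟨n, by linarith⟩
      have h4 : (q : ℤ) ∣ (k : ℤ) := hcop.symm.dvd_of_dvd_mul_right h3
      have h5 : q ∣ k := by exact_mod_cast h4
      have := Nat.le_of_dvd (by omega) h5
      omega
    have := Int.one_le_abs h2
    have h3 : ((1 : ℤ) : ℝ) ≤ ((|(k : ℤ) * a - n * q| : ℤ) : ℝ) := by exact_mod_cast this
    push_cast at h3
    exact h3
  have h2 : |(k : ℝ) * a / q - n| = |(k : ℝ) * a - n * q| / q := by
    rw [← abs_of_pos hq0, ← abs_div, abs_of_pos hq0]
    congr 1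
    field_simp
  have h3 : 1 / (q : ℝ) ≤ |(k : ℝ) * a / q - n| := by
    rw [h2]
    gcongr
  have h4 : |k * (β - a / q)| ≤ 1 / (2 * q) := by
    rw [abs_mul, abs_of_pos hk0]
    calc (k : ℝ) * |β - a / q| ≤ H * (1 / (2 * q * H)) := by
          have : (k : ℝ) ≤ H := by exact_mod_cast hkH
          gcongr
      _ = _ := by field_simp
  have h5 : |(k : ℝ) * a / q - n| ≤ |di (k * β)| + |k * (β - a / q)| := by
    have e : (k : ℝ) * a / q - n = di (k * β) - k * (β - a / q) := by
      unfold di
      rw [← hn]
      ring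
    rw [e]
    exact abs_sub _ _
  have h6 : 1 / (q : ℝ) = 1 / (2 * q) + 1 / (2 * q) := by field_simp; norm_num
  linarith

/-- the shifted sums -/
theorem shift_good {g : ℕ → ℝ} {L : ℕ} {lam A : ℝ} (hlam : 0 < lam) (hA : 1 ≤ A)
    (hc : Cond 3 g (L + 3) lam A) (hL : 1 ≤ L) (h H : ℕ) (hh : 1 ≤ h) (hhH : h < H)
    (hHL : (H : ℝ) * L * lam ≤ 1) (B : ℝ) (hB : B = 1 + √(H * lam) * L) :
    ‖∑ n ∈ range (L - h), ee (g (n + h) - g n)‖ ≤ 40 * A / √(h * lam) ∧
    ‖∑ n ∈ range (L - h), ee (g (n + h) - g n)‖ * |di (h * sd g 0)| ≤ 80 * A ^ 2 * B := by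
  have hLr : (1 : ℝ) ≤ L := by exact_mod_cast hL
  have hL0 : (0 : ℝ) < L := by linarith
  have hh0 : (0 : ℝ) < h := by exact_mod_cast hh
  have hhH' : (h : ℝ) ≤ H := by exact_mod_cast hhH.le
  have hH0 : (0 : ℝ) < H := by linarith
  have hhl : 0 < (h : ℝ) * lam := by positivity
  have hB0 : 0 ≤ √(H * lam) * L := by positivity
  set X : ℝ := ‖∑ n ∈ range (L - h), ee (g (n + h) - g n)‖ with hX
  have hX0 : 0 ≤ X := norm_nonneg _
  have hc2 : Cond 2 (fun n => g (n + h) - g n) (L - h) (h * lam) A :=
    cond_mono (cond_diff hc hh) (by omega)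
  have h1 : X ≤ 40 * A / √(h * lam) := by
    have h2 := vdc_two A hA L (L - h) (fun n => g (n + h) - g n) (h * lam) hL (by omega) hhl hc2
    refine h2.trans ?_
    have hVB : VB 2 L (h * lam) = (L : ℝ) * Real.sqrt (h * lam) + 1 / Real.sqrt (h * lam) := by
      unfold VB
      have e1 : (1 : ℝ) / ((2 : ℝ) ^ 2 - 2) = 1 / 2 := by norm_num
      have e2 : (1 : ℝ) - 4 / (2 : ℝ) ^ 2 = 0 := by norm_num
      rw [e1, e2, Real.rpow_zero, one_mul, Real.rpow_neg hhl.le, ← Real.sqrt_eq_rpow, one_div]
    rw [hVB]
    have hs := Real.sqrt_pos.2 hhl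
    have hss : √(h * lam) * √(h * lam) = h * lam := Real.mul_self_sqrt hhl.le
    have h3 : (L : ℝ) * √(h * lam) ≤ 1 / √(h * lam) := by
      rw [le_div_iff₀ hs]
      calc (L : ℝ) * √(h * lam) * √(h * lam) = h * L * lam := by
            rw [mul_assoc, hss]; ring
        _ ≤ H * L * lam := by gcongr
        _ ≤ 1 := hHL
    calc 20 * A * ((L : ℝ) * √(h * lam) + 1 / √(h * lam)) ≤
          20 * A * (1 / √(h * lam) + 1 / √(h * lam)) := by gcongr
      _ = _ := by ring
  refine ⟨h1, ?_⟩
  set β : ℝ := sd g 0 with hβ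
  set k : ℤ := round (h * β) with hk
  set D : ℝ := |di (h * β)| with hD
  have hD0 : 0 ≤ D := abs_nonneg _
  have hD2 : D ≤ 1 / 2 := di_abs _
  set ω : ℝ := h * (L * (A * lam)) with hω
  have hω0 : 0 < ω := by positivity
  have hAA : A ≤ A ^ 2 := by nlinarith
  rcases le_or_gt (2 * ω) D with hcase | hcase
  · -- all first differences are away from the integers
    have hDp : 0 < D := by linarith
    -- the first differences
    have hDf : ∀ n, n + 1 < L - h → h * β ≤ (g (n + 1 + h) - g (n + 1)) - (g (n + h) - g n) ∧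
        (g (n + 1 + h) - g (n + 1)) - (g (n + h) - g n) ≤ h * β + ω := by
      intro n hn
      rw [diff_sum]
      have e2 : ∀ z : ℝ, (h : ℝ) * z = ∑ j ∈ range h, z := by
        intro z
        rw [sum_const, card_range, nsmul_eq_mul]
      rw [hω, e2 β, e2 (L * (A * lam)), ← sum_add_distrib]
      have hb : ∀ j ∈ range h, β ≤ sd g (n + j) ∧ sd g (n + j) ≤ β + L * (A * lam) := by
        intro j hj
        rw [mem_range] at hj
        obtain ⟨h3, h4⟩ := sd_bd hc 0 (n + j) (Nat.zero_le _) (by omega)
        simp only [Nat.cast_zero, sub_zero] at h3 h4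
        have h5 : ((n + j : ℕ) : ℝ) ≤ L := by
          have : n + j ≤ L := by omega
          exact_mod_cast this
        have h6 : 0 ≤ ((n + j : ℕ) : ℝ) * lam := by positivity
        have h7 : ((n + j : ℕ) : ℝ) * (A * lam) ≤ L * (A * lam) := by gcongr
        constructor <;> linarith
      constructor
      · exact sum_le_sum fun j hj => (hb j hj).1
      · exact sum_le_sum fun j hj => (hb j hj).2
    have h2 : X ≤ 2 / (D / 3) + 1 := by
      -- the sign of the distance
      have hdi : di (h * β) = h * β - k := rfl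
      rcases le_total 0 (di (h * β)) with hs | hs
      · have e : D = h * β - k := by rw [hD, abs_of_nonneg hs, hdi]
        refine all_good hhl hc2 (θ := D / 3) (by positivity) k ?_
        intro n hn
        have := hDf n hn
        constructor <;> linarith [this.1, this.2]
      · have e : D = k - h * β := by rw [hD, abs_of_nonpos hs, hdi]; ring
        refine all_good hhl hc2 (θ := D / 3) (by positivity) (k - 1) ?_
        intro n hn
        have := hDf n hn
        push_cast
        constructor <;> linarith [this.1, this.2]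
    have h3 : X * D ≤ 7 := by
      calc X * D ≤ (2 / (D / 3) + 1) * D := by gcongr
        _ = 6 + D := by field_simp; ring
        _ ≤ 7 := by linarith
    have h4 : (1 : ℝ) ≤ B := by linarith
    have h5 : (7 : ℝ) ≤ 80 * A ^ 2 * B := by nlinarith
    linarith
  · have hs := Real.sqrt_pos.2 hhl
    have hss : √(h * lam) * √(h * lam) = h * lam := Real.mul_self_sqrt hhl.le
    calc X * D ≤ 40 * A / √(h * lam) * (2 * ω) := by gcongr
      _ = 80 * A ^ 2 * (L * ((h * lam) / √(h * lam))) := by
          rw [hω]
          field_simp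
          ring
      _ = 80 * A ^ 2 * (L * √(h * lam)) := by
          congr 2
          rw [div_eq_iff hs.ne', hss]
      _ ≤ 80 * A ^ 2 * B := by
          have : √(h * lam) ≤ √(H * lam) := Real.sqrt_le_sqrt (by gcongr)
          have h5 : (L : ℝ) * √(h * lam) ≤ B := by
            rw [hB]
            nlinarith
          gcongr

end Pool.Agent.H73.GS
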