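import Pool.Agent.H73.GS.C

set_option autoImplicit false

/-!
The third derivative test of Gritsenko and Sargos, with the dependence on the rational approximation of
the second derivative.
-/

namespace Pool.Agent.H73.GS

open Finset
open Pool.Agent.Helper153.Vdc (ee dd Cond ee_norm triv_bound cond_diff vdc_ineq')

theorem sum_inv_sqrt (J : ℕ) : ∑ j ∈ Icc 1 J, 1 / √(j : ℝ) ≤ 2 * √(J : ℝ) := by
  induction J with
  | zero => simp
  | succ J ih =>
    rw [sum_Icc_succ_top (by omega)]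
    have h1 : 0 ≤ √(J : ℝ) := Real.sqrt_nonneg _
    have h2 : 0 < √((J + 1 : ℕ) : ℝ) := Real.sqrt_pos.2 (by positivity)
    have h3 : √(J : ℝ) * √(J : ℝ) = J := Real.mul_self_sqrt (Nat.cast_nonneg _)
    have h4 : √((J + 1 : ℕ) : ℝ) * √((J + 1 : ℕ) : ℝ) = ((J + 1 : ℕ) : ℝ) :=
      Real.mul_self_sqrt (Nat.cast_nonneg _)
    set x := √(J : ℝ)
    set y := √((J + 1 : ℕ) : ℝ)
    have h5 : y * y = x * x + 1 := by
      rw [h3, h4]; push_cast; ring
    have h6 : 1 / y ≤ 2 * y - 2 * x := by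
      rw [div_le_iff₀ h2]
      nlinarith [sq_nonneg (y - x)]
    linarith

theorem caseA {g : ℕ → ℝ} {L : ℕ} {lam A : ℝ} (hlam : 0 < lam) (hA : 1 ≤ A)
    (hc : Cond 3 g (L + 3) lam A) (hL : 1 ≤ L) (a : ℤ) (q H : ℕ) (hq : 1 ≤ q) (hqH : q ≤ 2 * H)
    (hH : 1 ≤ H) (hHL : H ≤ L) (hHLl : (H : ℝ) * L * lam ≤ 1) (hcop : IsCoprime a (q : ℤ))
    (happ : |sd g 0 - a / q| ≤ 1 / (2 * q * H)) :
    ‖∑ n ∈ range L, ee (g n)‖ ^ 2 ≤ 19200 * A ^ 2 * (1 + Real.log L) *
      ((L : ℝ) ^ 2 / H + L / (q * √(H * lam)) + L + (L : ℝ) ^ 2 * √(H * lam)) := by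
  classical
  have hLr : (1 : ℝ) ≤ L := by exact_mod_cast hL
  have hL0 : (0 : ℝ) < L := by linarith
  have hH1 : (1 : ℝ) ≤ H := by exact_mod_cast hH
  have hH0 : (0 : ℝ) < H := by linarith
  have hq1 : (1 : ℝ) ≤ q := by exact_mod_cast hq
  have hq0 : (0 : ℝ) < q := by linarith
  have hlog : 0 ≤ Real.log L := Real.log_nonneg hLr
  set lg : ℝ := 1 + Real.log L with hlg
  have hlg1 : 1 ≤ lg := by linarith
  set B : ℝ := 1 + √(H * lam) * L with hB
  have hB1 : 1 ≤ B := by
    have : 0 ≤ √(H * lam) * L := by positivity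
    linarith
  set β : ℝ := sd g 0 with hβ
  set T : ℕ → ℝ := fun h => ‖∑ n ∈ range (L - h), ee (g (n + h) - g n)‖ with hT
  have hT0 : ∀ h, 0 ≤ T h := fun h => norm_nonneg _
  have hgood : ∀ h ∈ Ico 1 H, T h ≤ 40 * A / √(h * lam) ∧ T h * |di (h * β)| ≤ 80 * A ^ 2 * B := by
    intro h hh
    rw [mem_Ico] at hh
    exact shift_good hlam hA hc hL h H hh.1 hh.2 hHLl B rfl
  set B' : ℝ := 80 * A ^ 2 * B with hB'
  have hB'0 : 0 ≤ B' := by positivity
  -- separation
  have hsep : ∀ i ∈ Ico 1 H, ∀ j ∈ Ico 1 H, i / q = j / q → i ≠ j →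
      1 / (2 * (q : ℝ)) ≤ |di (i * β) - di (j * β)| := by
    have key : ∀ i ∈ Ico 1 H, ∀ j ∈ Ico 1 H, i / q = j / q → j < i →
        1 / (2 * (q : ℝ)) ≤ |di (i * β) - di (j * β)| := by
      intro i hi j hj hij hlt
      rw [mem_Ico] at hi hj
      have h1 : i - j < q := by
        have h2 := Nat.div_add_mod i q
        have h3 := Nat.div_add_mod j q
        have h4 := Nat.mod_lt i (show q > 0 by omega)
        have h5 := Nat.mod_lt j (show q > 0 by omega)
        rw [hij] at h2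
        omega
      have h2 := di_mul hq hH hcop happ (i - j) (by omega) h1 (by omega)
      refine h2.trans ?_
      have h3 : ((i - j : ℕ) : ℝ) = i - j := by
        rw [Nat.cast_sub hlt.le]
      have h4 := di_le (((i - j : ℕ) : ℝ) * β) (round ((i : ℝ) * β) - round ((j : ℝ) * β))
      refine h4.trans (le_of_eq ?_)
      congr 1
      unfold di
      rw [h3]
      push_cast
      ring
    intro i hi j hj hij hne
    rcases lt_or_gt_of_ne hne with h | h
    · rw [abs_sub_comm]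
      exact key j hj i hi hij.symm h
    · exact key i hi j hj hij h
  have hδ : (0 : ℝ) < 1 / (2 * q) := by positivity
  have hJ : 1 ≤ ((2 * q : ℕ) : ℝ) * (1 / (2 * (q : ℝ))) := by
    apply le_of_eq
    push_cast
    field_simp
  have hlogq : 1 + Real.log ((2 * q : ℕ) : ℝ) ≤ 3 * lg := by
    have h1 : ((2 * q : ℕ) : ℝ) ≤ 4 * L := by
      have : 2 * q ≤ 4 * L := by omega
      exact_mod_cast this
    have h2 : Real.log ((2 * q : ℕ) : ℝ) ≤ Real.log (4 * L) :=
      Real.log_le_log (by push_cast; positivity) h1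
    have h3 : Real.log (4 * (L : ℝ)) = Real.log 4 + Real.log L :=
      Real.log_mul (by norm_num) (by positivity)
    have h4 : Real.log 4 ≤ 2 := by
      have h5 : Real.log 4 = 2 * Real.log 2 := by
        rw [show (4 : ℝ) = 2 ^ 2 by norm_num, Real.log_pow]
        norm_num
      have := Real.log_two_lt_d9
      linarith
    linarith
  -- one block
  have hblock : ∀ (j : ℕ) (M : ℝ), 0 ≤ M → (∀ h ∈ (Ico 1 H).filter (fun h => h / q = j), T h ≤ M) →
      ∑ h ∈ (Ico 1 H).filter (fun h => h / q = j), T h ≤ 2 * M + 12 * q * B' * lg := by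
    intro j M hM hTM
    have h1 := sep_sum ((Ico 1 H).filter (fun h => h / q = j)) (fun h => di (h * β)) T (1 / (2 * (q : ℝ)))
      M B' (2 * q) hδ hJ hM hB'0 (fun h _ => di_abs _) (by
        intro i hi i' hi' hne
        rw [mem_filter] at hi hi'
        exact hsep i hi.1 i' hi'.1 (by rw [hi.2, hi'.2]) hne) hTM (by
        intro i hi
        exact (hgood i (mem_filter.1 hi).1).2)
    refine h1.trans ?_
    have e : 2 * B' / (1 / (2 * (q : ℝ))) = 4 * q * B' := by field_simp; ring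
    rw [e]
    have : 4 * q * B' * (1 + Real.log ((2 * q : ℕ) : ℝ)) ≤ 4 * q * B' * (3 * lg) := by gcongr
    linarith
  -- the block `0`
  have hblock0 : ∑ h ∈ (Ico 1 H).filter (fun h => h / q = 0), T h ≤ 16 * q * B' * lg := by
    have h1 := hblock 0 (2 * q * B') (by positivity) (by
      intro h hh
      rw [mem_filter] at hh
      have hh1 := mem_Ico.1 hh.1
      have hhq : h < q := by
        rcases Nat.div_eq_zero_iff.1 hh.2 with h2 | h2
        · omega
        · exact h2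
      have h2 := di_mul hq hH hcop happ h hh1.1 hhq (by omega)
      have h3 := (hgood h hh.1).2
      have h4 : T h * (1 / (2 * (q : ℝ))) ≤ B' := (mul_le_mul_of_nonneg_left h2 (hT0 h)).trans h3
      rw [mul_one_div, div_le_iff₀ (by positivity)] at h4
      linarith)
    have : 2 * (2 * q * B') ≤ 4 * q * B' * lg := by
      have : 0 ≤ 4 * q * B' := by positivity
      nlinarith
    linarith
  -- the other blocks
  set c : ℝ := 40 * A / √(q * lam) with hcdef
  have hc0 : 0 ≤ c := by positivity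
  have hblockj : ∀ j ∈ Icc 1 (H / q), ∑ h ∈ (Ico 1 H).filter (fun h => h / q = j), T h ≤
      2 * (c * (1 / √(j : ℝ))) + 12 * q * B' * lg := by
    intro j hj
    rw [mem_Icc] at hj
    have hj0 : (0 : ℝ) < j := by exact_mod_cast hj.1
    apply hblock j _ (by positivity)
    intro h hh
    rw [mem_filter] at hh
    refine (hgood h hh.1).1.trans ?_
    have h1 : (j : ℝ) * q ≤ h := by
      have : j * q ≤ h := by
        rw [← hh.2]
        exact Nat.div_mul_le_self h q
      exact_mod_cast this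
    have h2 : √((q : ℝ) * lam) * √(j : ℝ) ≤ √(h * lam) := by
      rw [← Real.sqrt_mul (by positivity)]
      apply Real.sqrt_le_sqrt
      calc (q : ℝ) * lam * j = (j * q) * lam := by ring
        _ ≤ h * lam := by gcongr
    rw [hcdef]
    rw [div_mul_div_comm, mul_one]
    have h3 : 0 < √((q : ℝ) * lam) * √(j : ℝ) := by
      apply mul_pos (Real.sqrt_pos.2 (by positivity)) (Real.sqrt_pos.2 hj0)
    gcongr
  -- all blocks
  have hsum : ∑ h ∈ Ico 1 H, T h ≤ 160 * A * √H / (q * √lam) + 4800 * H * A ^ 2 * B * lg := by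
    have hmaps : ∀ h ∈ Ico 1 H, h / q ∈ range (H / q + 1) := by
      intro h hh
      rw [mem_Ico] at hh
      rw [mem_range]
      have := Nat.div_le_div_right (c := q) hh.2.le
      omega
    rw [← sum_fiberwise_of_maps_to hmaps]
    have hr : range (H / q + 1) = insert 0 (Icc 1 (H / q)) := by
      generalize H / q = D
      ext x
      simp only [mem_range, mem_insert, mem_Icc]
      omega
    rw [hr, sum_insert (by simp)]
    have h1 : ∑ j ∈ Icc 1 (H / q), ∑ h ∈ (Ico 1 H).filter (fun h => h / q = j), T h ≤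
        ∑ j ∈ Icc 1 (H / q), (2 * (c * (1 / √(j : ℝ))) + 12 * q * B' * lg) := sum_le_sum hblockj
    have h2 : ∑ j ∈ Icc 1 (H / q), (2 * (c * (1 / √(j : ℝ))) + 12 * q * B' * lg) =
        2 * c * ∑ j ∈ Icc 1 (H / q), 1 / √(j : ℝ) + ((H / q : ℕ) : ℝ) * (12 * q * B' * lg) := by
      rw [sum_add_distrib, mul_sum]
      congr 1
      · apply sum_congr rfl
        intro j _
        ring
      · simp
    have h3 : 2 * c * ∑ j ∈ Icc 1 (H / q), 1 / √(j : ℝ) ≤ 160 * A * √H / (q * √lam) := by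
      have hHq : ((H / q : ℕ) : ℝ) ≤ H / q := Nat.cast_div_le
      calc 2 * c * ∑ j ∈ Icc 1 (H / q), 1 / √(j : ℝ) ≤ 2 * c * (2 * √((H / q : ℕ) : ℝ)) := by
            gcongr
            exact sum_inv_sqrt _
        _ ≤ 2 * c * (2 * √((H : ℝ) / q)) := by
            gcongr
        _ = 160 * A * √H / (q * √lam) := by
            rw [hcdef, Real.sqrt_mul hq0.le, Real.sqrt_div hH0.le]
            have hsq : √(q : ℝ) * √(q : ℝ) = q := Real.mul_self_sqrt hq0.le
            have hsq0 : 0 < √(q : ℝ) := Real.sqrt_pos.2 hq0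
            have hsl : 0 < √lam := Real.sqrt_pos.2 hlam
            rw [show (q : ℝ) * √lam = (√(q : ℝ) * √(q : ℝ)) * √lam by rw [hsq]]
            field_simp
            norm_num
    have h4 : ((H / q : ℕ) : ℝ) * (12 * q * B' * lg) ≤ 12 * H * B' * lg := by
      have hHq : ((H / q : ℕ) : ℝ) * q ≤ H := by
        have : H / q * q ≤ H := Nat.div_mul_le_self H q
        exact_mod_cast this
      calc ((H / q : ℕ) : ℝ) * (12 * q * B' * lg) = 12 * (((H / q : ℕ) : ℝ) * q) * B' * lg := by ring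
        _ ≤ _ := by gcongr
    have h5 : 16 * q * B' * lg ≤ 32 * H * B' * lg := by
      have : (q : ℝ) ≤ 2 * H := by exact_mod_cast hqH
      calc 16 * q * B' * lg ≤ 16 * (2 * H) * B' * lg := by gcongr
        _ = _ := by ring
    have h6 : 12 * H * B' * lg + 32 * H * B' * lg ≤ 4800 * H * A ^ 2 * B * lg := by
      rw [hB']
      have : 0 ≤ H * A ^ 2 * B * lg := by positivity
      nlinarith
    linarith
  -- the end
  have hvdc := vdc_ineq' L L H le_rfl hH hHL g
  have hvdc' : ‖∑ n ∈ range L, ee (g n)‖ ^ 2 ≤ 2 * (L : ℝ) / H * ((L : ℝ) + 2 * ∑ h ∈ Ico 1 H, T h) :=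
    hvdc
  refine hvdc'.trans ?_
  have hsl : 0 < √lam := Real.sqrt_pos.2 hlam
  have hsH : 0 < √(H : ℝ) := Real.sqrt_pos.2 hH0
  have hHl : √((H : ℝ) * lam) = √(H : ℝ) * √lam := Real.sqrt_mul hH0.le _
  have hHH : √(H : ℝ) * √(H : ℝ) = H := Real.mul_self_sqrt hH0.le
  calc 2 * (L : ℝ) / H * ((L : ℝ) + 2 * ∑ h ∈ Ico 1 H, T h)
      ≤ 2 * (L : ℝ) / H * ((L : ℝ) + 2 * (160 * A * √H / (q * √lam) + 4800 * H * A ^ 2 * B * lg)) := by
        gcongr
    _ = 2 * ((L : ℝ) ^ 2 / H) + 640 * A * (L / (q * √(H * lam))) + 19200 * A ^ 2 * lg * (L * B) := by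
        rw [hHl]
        have hk : √(H : ℝ) / H = 1 / √(H : ℝ) := by
          rw [div_eq_div_iff hH0.ne' hsH.ne', hHH, one_mul]
        calc _ = 2 * ((L : ℝ) ^ 2 / H) + 640 * A * (L / (q * √lam)) * (√(H : ℝ) / H) +
              19200 * A ^ 2 * lg * (L * B) := by
              field_simp
              ring
          _ = _ := by
              rw [hk]
              field_simp
    _ ≤ (19200 * A ^ 2 * lg) * ((L : ℝ) ^ 2 / H) + (19200 * A ^ 2 * lg) * (L / (q * √(H * lam))) +
          19200 * A ^ 2 * lg * (L * B) := by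
        have hA2 : A ≤ A ^ 2 := by nlinarith
        have h1 : A ^ 2 ≤ A ^ 2 * lg := by nlinarith
        have a1 : (2 : ℝ) ≤ 19200 * A ^ 2 * lg := by nlinarith
        have a2 : 640 * A ≤ 19200 * A ^ 2 * lg := by nlinarith
        have b1 : 0 ≤ (L : ℝ) ^ 2 / H := by positivity
        have b2 : 0 ≤ (L : ℝ) / (q * √(H * lam)) := by positivity
        have := mul_le_mul_of_nonneg_right a1 b1
        have := mul_le_mul_of_nonneg_right a2 b2
        linarith
    _ = _ := by
        rw [hB]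
        ring

/-- **the third derivative test** with a free choice of the parameters -/
theorem test3 {g : ℕ → ℝ} {L : ℕ} {lam A : ℝ} (hlam : 0 < lam) (hA : 1 ≤ A)
    (hc : Cond 3 g (L + 3) lam A) (hL : 1 ≤ L) (H : ℕ) (hH : 1 ≤ H) (hHL : H ≤ L)
    (hHLl : (H : ℝ) * L * lam ≤ 1) (Y Q : ℝ) (hY : 1 ≤ Y) (hYL : Y ≤ L) (hQ : 0 < Q) :
    ‖∑ n ∈ range L, ee (g n)‖ ^ 2 ≤ 19200 * A ^ 2 * (1 + Real.log L) *
      ((L : ℝ) ^ 2 / H + L / (Q * √(H * lam)) + L + (L : ℝ) ^ 2 * √(H * lam) +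
        Q * L + Q * (L : ℝ) ^ 3 * lam + 1 / (Y * lam) + (L : ℝ) ^ 2 / Y + Y ^ 2) := by
  have hLr : (1 : ℝ) ≤ L := by exact_mod_cast hL
  have hH1 : (1 : ℝ) ≤ H := by exact_mod_cast hH
  have hH0 : (0 : ℝ) < H := by linarith
  have hlog : 0 ≤ Real.log L := Real.log_nonneg hLr
  obtain ⟨r, hr1, hr2⟩ := Real.exists_rat_abs_sub_le_and_den_le (sd g 0) (n := 2 * H) (by omega)
  have hden : 1 ≤ r.den := r.pos
  have hden' : (1 : ℝ) ≤ r.den := by exact_mod_cast hden
  have hcop : IsCoprime r.num (r.den : ℤ) := by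
    rw [Int.isCoprime_iff_gcd_eq_one]
    exact r.reduced
  have happ : |sd g 0 - r.num / r.den| ≤ 1 / (2 * r.den * H) := by
    have e : ((r : ℚ) : ℝ) = (r.num : ℝ) / r.den := by
      rw [Rat.cast_def]
    rw [← e]
    refine hr1.trans ?_
    apply one_div_le_one_div_of_le (by positivity)
    push_cast
    nlinarith
  have t0 : 0 ≤ (L : ℝ) ^ 2 / H := by positivity
  have t1 : 0 ≤ (L : ℝ) / (Q * √(H * lam)) := by positivity
  have t2 : 0 ≤ (L : ℝ) ^ 2 * √(H * lam) := by positivity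
  have t3 : 0 ≤ Q * L := by positivity
  have t4 : 0 ≤ Q * (L : ℝ) ^ 3 * lam := by positivity
  have t5 : 0 ≤ 1 / (Y * lam) := by positivity
  have t6 : 0 ≤ (L : ℝ) ^ 2 / Y := by positivity
  have t7 : 0 ≤ Y ^ 2 := by positivity
  rcases le_or_gt Q r.den with h | h
  · refine (caseA hlam hA hc hL r.num r.den H hden hr2 hH hHL hHLl hcop happ).trans ?_
    have h1 : (L : ℝ) / (r.den * √(H * lam)) ≤ L / (Q * √(H * lam)) := by
      have : 0 < √((H : ℝ) * lam) := Real.sqrt_pos.2 (by positivity)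
      gcongr
    apply mul_le_mul_of_nonneg_left _ (by positivity)
    linarith
  · refine (caseB hlam hA hc hL r.num r.den H hden hH happ Y hY hYL).trans ?_
    have h1 : (r.den : ℝ) * L ≤ Q * L := by gcongr
    have h2 : (r.den : ℝ) * (L : ℝ) ^ 3 * lam ≤ Q * (L : ℝ) ^ 3 * lam := by gcongr
    have h3 : 3456 * A * (1 + Real.log L) ≤ 19200 * A ^ 2 * (1 + Real.log L) := by
      have : A ≤ A ^ 2 := by nlinarith
      have : 3456 * A ≤ 19200 * A ^ 2 := by nlinarith
      gcongr
    apply mul_le_mul h3 _ (by positivity) (by positivity)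
    linarith

/-- the case of a small second difference `β`, `1 / (2 H) < β`: then only large denominators occur -/
theorem test3small {g : ℕ → ℝ} {L : ℕ} {lam A : ℝ} (hlam : 0 < lam) (hA : 1 ≤ A)
    (hc : Cond 3 g (L + 3) lam A) (hL : 1 ≤ L) (H : ℕ) (hH : 1 ≤ H) (hHL : H ≤ L)
    (hHLl : (H : ℝ) * L * lam ≤ 1) (hβ : 1 / (2 * H) < sd g 0) :
    ‖∑ n ∈ range L, ee (g n)‖ ^ 2 ≤ 19200 * A ^ 2 * (1 + Real.log L) *
      ((L : ℝ) ^ 2 / H + 2 * sd g 0 * L / √(H * lam) + L + (L : ℝ) ^ 2 * √(H * lam)) := by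
  have hLr : (1 : ℝ) ≤ L := by exact_mod_cast hL
  have hH1 : (1 : ℝ) ≤ H := by exact_mod_cast hH
  have hH0 : (0 : ℝ) < H := by linarith
  have hlog : 0 ≤ Real.log L := Real.log_nonneg hLr
  obtain ⟨r, hr1, hr2⟩ := Real.exists_rat_abs_sub_le_and_den_le (sd g 0) (n := 2 * H) (by omega)
  have hden : 1 ≤ r.den := r.pos
  have hden' : (1 : ℝ) ≤ r.den := by exact_mod_cast hden
  have hden0 : (0 : ℝ) < r.den := by linarith
  have hcop : IsCoprime r.num (r.den : ℤ) := by
    rw [Int.isCoprime_iff_gcd_eq_one]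
    exact r.reduced
  have happ : |sd g 0 - r.num / r.den| ≤ 1 / (2 * r.den * H) := by
    have e : ((r : ℚ) : ℝ) = (r.num : ℝ) / r.den := by
      rw [Rat.cast_def]
    rw [← e]
    refine hr1.trans ?_
    apply one_div_le_one_div_of_le (by positivity)
    push_cast
    nlinarith
  have hβ0 : 0 < sd g 0 := lt_trans (by positivity) hβ
  -- the numerator is positive
  have hnum : 1 ≤ r.num := by
    by_contra h
    push Not at h
    have h1 : (r.num : ℝ) ≤ 0 := by
      have : r.num ≤ 0 := by omega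
      exact_mod_cast this
    have h2 : (r.num : ℝ) / r.den ≤ 0 := div_nonpos_of_nonpos_of_nonneg h1 hden0.le
    have h3 := (abs_le.1 happ).2
    have h4 : 1 / (2 * (r.den : ℝ) * H) ≤ 1 / (2 * H) := by
      apply one_div_le_one_div_of_le (by positivity)
      nlinarith
    linarith
  have hq : 1 / (r.den : ℝ) ≤ 2 * sd g 0 := by
    have h1 : (1 : ℝ) ≤ r.num := by exact_mod_cast hnum
    have h2 : 1 / (r.den : ℝ) ≤ r.num / r.den := by gcongr
    have h3 := (abs_le.1 happ).1
    have h4 : 1 / (2 * (r.den : ℝ) * H) ≤ 1 / (2 * (r.den : ℝ)) := by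
      apply one_div_le_one_div_of_le (by positivity)
      nlinarith
    have h5 : 1 / (2 * (r.den : ℝ)) = (1 / r.den) / 2 := by field_simp
    linarith
  refine (caseA hlam hA hc hL r.num r.den H hden hr2 hH hHL hHLl hcop happ).trans ?_
  have hs : 0 < √((H : ℝ) * lam) := Real.sqrt_pos.2 (by positivity)
  have h1 : (L : ℝ) / (r.den * √(H * lam)) ≤ 2 * sd g 0 * L / √(H * lam) := by
    calc (L : ℝ) / (r.den * √(H * lam)) = (1 / r.den) * (L / √(H * lam)) := by
          field_simp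
      _ ≤ (2 * sd g 0) * (L / √(H * lam)) := by gcongr
      _ = _ := by ring
  apply mul_le_mul_of_nonneg_left _ (by positivity)
  linarith

end Pool.Agent.H73.GS
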