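import Pool.Agent.H73.GS.D
import Pool.Graph.R_seed8.R327.SIAp

set_option autoImplicit false

/-!
The phase `-Z log (u - n)`.
-/

namespace Pool.Agent.H73.GS

open Finset
open Pool.Agent.Helper153.Vdc (ee dd Cond ee_norm triv_bound)
open Pool.Agent.TH705.DL (ph ph_norm ph_conj ph_eq)

/-- third difference of the logarithm -/
noncomputable def F3 (v : ℝ) : ℝ :=
  Real.log (v + 3) - 3 * Real.log (v + 2) + 3 * Real.log (v + 1) - Real.log v

theorem F3_eq {v : ℝ} (hv : 0 < v) : F3 v = Real.log (1 + (2 * v + 3) / (v * (v + 2) ^ 3)) := by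
  have e : 1 + (2 * v + 3) / (v * (v + 2) ^ 3) = (v + 3) * (v + 1) ^ 3 / ((v + 2) ^ 3 * v) := by
    field_simp
    ring
  rw [e, Real.log_div (by positivity) (by positivity), Real.log_mul (by positivity) (by positivity),
    Real.log_mul (by positivity) (by positivity), Real.log_pow, Real.log_pow]
  unfold F3
  push_cast
  ring

theorem F3_anti {v : ℝ} (hv : 0 < v) : F3 (v + 1) ≤ F3 v := by
  rw [F3_eq hv, F3_eq (by linarith)]
  apply Real.log_le_log (by positivity)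
  have h : (2 * (v + 1) + 3) / ((v + 1) * (v + 1 + 2) ^ 3) ≤ (2 * v + 3) / (v * (v + 2) ^ 3) := by
    rw [div_le_div_iff₀ (by positivity) (by positivity)]
    have h1 : (2 * (v + 1) + 3) * v ≤ (2 * v + 3) * (v + 1) := by nlinarith
    have h2 : (v + 2) ^ 3 ≤ (v + 1 + 2) ^ 3 := by gcongr; linarith
    calc (2 * (v + 1) + 3) * (v * (v + 2) ^ 3) = ((2 * (v + 1) + 3) * v) * (v + 2) ^ 3 := by ring
      _ ≤ ((2 * v + 3) * (v + 1)) * (v + 1 + 2) ^ 3 := by
          apply mul_le_mul h1 h2 (by positivity) (by positivity)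
      _ = _ := by ring
  linarith

theorem F3_le {v N : ℝ} (hN : 0 < N) (hv : N / 2 ≤ v) : F3 v ≤ 16 / N ^ 3 := by
  have hv0 : 0 < v := by linarith
  rw [F3_eq hv0]
  have h1 := Real.log_le_sub_one_of_pos (show 0 < 1 + (2 * v + 3) / (v * (v + 2) ^ 3) by positivity)
  have h2 : (2 * v + 3) / (v * (v + 2) ^ 3) ≤ 2 / v ^ 3 := by
    rw [div_le_div_iff₀ (by positivity) (by positivity)]
    have : (2 * v + 3) * v ^ 2 ≤ 2 * (v + 2) ^ 3 := by nlinarith [sq_nonneg v]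
    calc (2 * v + 3) * v ^ 3 = v * ((2 * v + 3) * v ^ 2) := by ring
      _ ≤ v * (2 * (v + 2) ^ 3) := by gcongr
      _ = _ := by ring
  have h3 : 2 / v ^ 3 ≤ 2 / (N / 2) ^ 3 := by gcongr
  have h4 : 2 / (N / 2) ^ 3 = 16 / N ^ 3 := by field_simp; norm_num
  linarith

theorem log_one_add_ge {y : ℝ} (hy : 0 ≤ y) (hy1 : y ≤ 1) : y / 2 ≤ Real.log (1 + y) := by
  have h := Real.one_sub_inv_le_log_of_pos (show 0 < 1 + y by linarith)
  have h1 : y / 2 ≤ 1 - (1 + y)⁻¹ := by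
    rw [← one_div, le_sub_iff_add_le, ← le_sub_iff_add_le', div_le_iff₀ (by linarith)]
    nlinarith
  linarith

theorem F3_ge {v N : ℝ} (hv : 2 ≤ v) (hvN : v + 2 ≤ 3 * N) : 1 / (27 * N ^ 3) ≤ F3 v := by
  have hv0 : 0 < v := by linarith
  have hN : 0 < N := by linarith
  rw [F3_eq hv0]
  have hy1 : (2 * v + 3) / (v * (v + 2) ^ 3) ≤ 1 := by
    rw [div_le_one (by positivity)]
    have h1 : (1 : ℝ) ≤ v + 2 := by linarith
    have h2 : (v + 2) ≤ (v + 2) ^ 3 := by nlinarith [sq_nonneg (v + 2)]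
    nlinarith
  have h := log_one_add_ge (show 0 ≤ (2 * v + 3) / (v * (v + 2) ^ 3) by positivity) hy1
  refine le_trans ?_ h
  have h1 : 2 / (v + 2) ^ 3 ≤ (2 * v + 3) / (v * (v + 2) ^ 3) := by
    rw [div_le_div_iff₀ (by positivity) (by positivity)]
    have : 2 * v ≤ 2 * v + 3 := by linarith
    calc 2 * (v * (v + 2) ^ 3) = (2 * v) * (v + 2) ^ 3 := by ring
      _ ≤ _ := by gcongr
  have h2 : 1 / (27 * N ^ 3) ≤ 1 / (v + 2) ^ 3 := by
    apply one_div_le_one_div_of_le (by positivity)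
    calc (v + 2) ^ 3 ≤ (3 * N) ^ 3 := by gcongr
      _ = _ := by ring
  have h3 : 2 / (v + 2) ^ 3 / 2 = 1 / (v + 2) ^ 3 := by ring
  linarith

/-- second difference of the logarithm with the opposite sign -/
noncomputable def F2 (v : ℝ) : ℝ := 2 * Real.log (v + 1) - Real.log v - Real.log (v + 2)

theorem F2_eq {v : ℝ} (hv : 0 < v) : F2 v = Real.log (1 + 1 / (v * (v + 2))) := by
  have e : 1 + 1 / (v * (v + 2)) = (v + 1) ^ 2 / (v * (v + 2)) := by
    field_simp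
    ring
  rw [e, Real.log_div (by positivity) (by positivity), Real.log_mul (by positivity) (by positivity),
    Real.log_pow]
  unfold F2
  push_cast
  ring

theorem F2_le {v N : ℝ} (hN : 0 < N) (hv : N / 2 ≤ v) : F2 v ≤ 4 / N ^ 2 := by
  have hv0 : 0 < v := by linarith
  rw [F2_eq hv0]
  have h1 := Real.log_le_sub_one_of_pos (show 0 < 1 + 1 / (v * (v + 2)) by positivity)
  have h2 : 1 / (v * (v + 2)) ≤ 1 / (N / 2) ^ 2 := by
    apply one_div_le_one_div_of_le (by positivity)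
    nlinarith
  have h4 : 1 / (N / 2) ^ 2 = 4 / N ^ 2 := by field_simp; norm_num
  linarith

theorem F2_ge {v N : ℝ} (hv : 1 ≤ v) (hvN : v + 2 ≤ 3 * N) : 1 / (18 * N ^ 2) ≤ F2 v := by
  have hv0 : 0 < v := by linarith
  have hN : 0 < N := by linarith
  rw [F2_eq hv0]
  have hy1 : 1 / (v * (v + 2)) ≤ 1 := by
    rw [div_le_one (by positivity)]
    nlinarith
  have h := log_one_add_ge (show 0 ≤ 1 / (v * (v + 2)) by positivity) hy1
  refine le_trans ?_ h
  have h2 : 1 / (9 * N ^ 2) ≤ 1 / (v * (v + 2)) := by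
    apply one_div_le_one_div_of_le (by positivity)
    calc v * (v + 2) ≤ (v + 2) * (v + 2) := by gcongr; linarith
      _ ≤ (3 * N) * (3 * N) := by gcongr
      _ = _ := by ring
  have h3 : 1 / (9 * N ^ 2) / 2 = 1 / (18 * N ^ 2) := by field_simp; norm_num
  linarith

/-- the phase -/
noncomputable def lph (Z : ℝ) (u : ℕ) (n : ℕ) : ℝ := -(Z * Real.log ((u : ℝ) - n))

theorem lph_sd (Z : ℝ) (u n : ℕ) : sd (lph Z u) n = Z * F2 ((u : ℝ) - n - 2) := by
  unfold sd lph F2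
  push_cast
  rw [show (u : ℝ) - (n + 2) = u - n - 2 by ring, show (u : ℝ) - (n + 1) = u - n - 2 + 1 by ring,
    show (u : ℝ) - n = u - n - 2 + 2 by ring]
  rw [show (u : ℝ) - n - 2 + 2 - 2 = u - n - 2 by ring]
  ring

theorem lph_d3 (Z : ℝ) (u n : ℕ) : dd 3 (lph Z u) n = Z * F3 ((u : ℝ) - n - 3) := by
  have e : dd 3 (lph Z u) n = lph Z u (n + 3) - 3 * lph Z u (n + 2) + 3 * lph Z u (n + 1) - lph Z u n := by
    simp only [dd]
    ring
  rw [e]
  unfold lph F3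
  push_cast
  rw [show (u : ℝ) - (n + 3) = u - n - 3 by ring, show (u : ℝ) - (n + 2) = u - n - 3 + 1 by ring,
    show (u : ℝ) - (n + 1) = u - n - 3 + 2 by ring]
  rw [show (u : ℝ) - n - 3 + 3 = u - n by ring]
  ring

theorem lph_d4 (Z : ℝ) (u n : ℕ) :
    dd 4 (lph Z u) n = Z * (F3 ((u : ℝ) - n - 4) - F3 ((u : ℝ) - n - 4 + 1)) := by
  have e : dd 4 (lph Z u) n = dd 3 (lph Z u) (n + 1) - dd 3 (lph Z u) n := by
    simp only [dd]
  rw [e, lph_d3, lph_d3]
  push_cast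
  rw [show (u : ℝ) - (n + 1) - 3 = u - n - 4 by ring, show (u : ℝ) - n - 4 + 1 = u - n - 3 by ring]
  ring

/-- `a ≥ N ≥ 10`, `a + L ≤ 2 N + 1`, `u = a + L - 1` -/
theorem lph_cond3 {Z : ℝ} (hZ : 0 < Z) {N a L : ℕ} (hN : 10 ≤ N) (hNa : N ≤ a) (haL : a + L ≤ 2 * N + 1)
    (hL : 1 ≤ L) : Cond 3 (lph Z (a + L - 1)) (L + 3) (Z / (27 * (N : ℝ) ^ 3)) 432 := by
  have hNr : (10 : ℝ) ≤ N := by exact_mod_cast hN
  have hN0 : (0 : ℝ) < N := by linarith
  have hu : ((a + L - 1 : ℕ) : ℝ) = a + L - 1 := by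
    rw [Nat.cast_sub (by omega)]
    push_cast
    ring
  have har : (N : ℝ) ≤ a := by exact_mod_cast hNa
  have haLr : (a : ℝ) + L ≤ 2 * N + 1 := by exact_mod_cast haL
  have hLr : (1 : ℝ) ≤ L := by exact_mod_cast hL
  constructor
  · intro n hn
    have hnr : (n : ℝ) + 1 ≤ L := by
      have : n + 1 ≤ L := by omega
      exact_mod_cast this
    have hn0 : (0 : ℝ) ≤ n := Nat.cast_nonneg n
    rw [lph_d3, hu]
    set v : ℝ := (a : ℝ) + L - 1 - n - 3 with hv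
    have hv1 : (N : ℝ) / 2 ≤ v := by rw [hv]; linarith
    have hv2 : v + 2 ≤ 3 * N := by rw [hv]; linarith
    have h1 := F3_le hN0 hv1
    have h2 := F3_ge (show 2 ≤ v by linarith) hv2
    constructor
    · calc Z / (27 * (N : ℝ) ^ 3) = Z * (1 / (27 * (N : ℝ) ^ 3)) := by ring
        _ ≤ Z * F3 v := by gcongr
    · calc Z * F3 v ≤ Z * (16 / (N : ℝ) ^ 3) := by gcongr
        _ = _ := by field_simp; norm_num
  · intro n hn
    have hnr : (n : ℝ) + 2 ≤ L := by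
      have : n + 2 ≤ L := by omega
      exact_mod_cast this
    rw [lph_d4, hu]
    apply mul_nonneg hZ.le
    have := F3_anti (show 0 < (a : ℝ) + L - 1 - n - 4 by linarith)
    linarith

theorem lph_sd_le {Z : ℝ} (hZ : 0 < Z) {N a L : ℕ} (hN : 10 ≤ N) (hNa : N ≤ a)
    (hL : 1 ≤ L) (n : ℕ) (hn : n < L) :
    sd (lph Z (a + L - 1)) n ≤ 4 * Z / (N : ℝ) ^ 2 := by
  have hNr : (10 : ℝ) ≤ N := by exact_mod_cast hN
  have hN0 : (0 : ℝ) < N := by linarith
  have hu : ((a + L - 1 : ℕ) : ℝ) = a + L - 1 := by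
    rw [Nat.cast_sub (by omega)]
    push_cast
    ring
  have har : (N : ℝ) ≤ a := by exact_mod_cast hNa
  have hnr : (n : ℝ) + 1 ≤ L := by exact_mod_cast hn
  rw [lph_sd, hu]
  calc Z * F2 ((a : ℝ) + L - 1 - n - 2) ≤ Z * (4 / (N : ℝ) ^ 2) := by
        gcongr
        exact F2_le hN0 (by linarith)
    _ = _ := by ring

theorem lph_sd_ge {Z : ℝ} (hZ : 0 < Z) {N a L : ℕ} (hN : 10 ≤ N) (hNa : N ≤ a) (haL : a + L ≤ 2 * N + 1)
    (hL : 1 ≤ L) (n : ℕ) (hn : n < L) :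
    Z / (18 * (N : ℝ) ^ 2) ≤ sd (lph Z (a + L - 1)) n := by
  have hNr : (10 : ℝ) ≤ N := by exact_mod_cast hN
  have hN0 : (0 : ℝ) < N := by linarith
  have hu : ((a + L - 1 : ℕ) : ℝ) = a + L - 1 := by
    rw [Nat.cast_sub (by omega)]
    push_cast
    ring
  have har : (N : ℝ) ≤ a := by exact_mod_cast hNa
  have haLr : (a : ℝ) + L ≤ 2 * N + 1 := by exact_mod_cast haL
  have hnr : (n : ℝ) + 1 ≤ L := by exact_mod_cast hn
  have hn0 : (0 : ℝ) ≤ n := Nat.cast_nonneg n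
  rw [lph_sd, hu]
  calc Z / (18 * (N : ℝ) ^ 2) = Z * (1 / (18 * (N : ℝ) ^ 2)) := by ring
    _ ≤ Z * F2 ((a : ℝ) + L - 1 - n - 2) := by
        gcongr
        exact F2_ge (by linarith) (by linarith)

theorem lph_cond2 {Z : ℝ} (hZ : 0 < Z) {N a L : ℕ} (hN : 10 ≤ N) (hNa : N ≤ a) (haL : a + L ≤ 2 * N + 1)
    (hL : 1 ≤ L) : Cond 2 (lph Z (a + L - 1)) (L + 2) (Z / (18 * (N : ℝ) ^ 2)) 72 := by
  have hNr : (10 : ℝ) ≤ N := by exact_mod_cast hN
  have hN0 : (0 : ℝ) < N := by linarith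
  have e : ∀ n, dd 2 (lph Z (a + L - 1)) n = sd (lph Z (a + L - 1)) n := by
    intro n
    rfl
  constructor
  · intro n hn
    rw [e]
    refine ⟨lph_sd_ge hZ hN hNa haL hL n (by omega), ?_⟩
    refine (lph_sd_le hZ hN hNa hL n (by omega)).trans (le_of_eq ?_)
    field_simp
    norm_num
  · intro n hn
    have h := (lph_cond3 hZ hN hNa haL hL).1 n (by omega)
    refine le_trans ?_ h.1
    positivity

/-- the kernel of an interval is the sum of the phase -/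
theorem ker_lph (t : ℝ) (a L : ℕ) (ha : 1 ≤ a) :
    ‖∑ j ∈ range L, ph t (a + 1 * j)‖ = ‖∑ n ∈ range L, ee (lph (|t| / (2 * Real.pi)) (a + L - 1) n)‖ := by
  rw [Pool.Agent.R327.SI.ker_abs]
  rw [← sum_range_reflect (fun j => ph |t| (a + 1 * j)) L]
  rw [← Complex.norm_conj, map_sum]
  congr 1
  apply sum_congr rfl
  intro n hn
  rw [mem_range] at hn
  rw [ph_eq]
  unfold ee lph
  rw [← Complex.exp_conj]
  congr 1
  have h1 : ((a + 1 * (L - 1 - n) : ℕ) : ℝ) = ((a + L - 1 : ℕ) : ℝ) - n := by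
    have : a + 1 * (L - 1 - n) = a + L - 1 - n := by omega
    rw [this, Nat.cast_sub (by omega)]
  rw [h1]
  have hpi : (Real.pi : ℂ) ≠ 0 := by exact_mod_cast Real.pi_ne_zero
  simp only [map_mul, Complex.conj_I, Complex.conj_ofReal]
  push_cast
  field_simp

end Pool.Agent.H73.GS
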