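import Pool.Agent.H73.GS.E

set_option autoImplicit false

/-!
The kernel of an interval of at most `2 N^(7/12)` integers for `N^(7/6) ≤ |t| ≤ 4 N²`.
-/

namespace Pool.Agent.H73.GS

open Finset
open Pool.Agent.Helper153.Vdc (ee dd Cond ee_norm triv_bound)
open Pool.Agent.TH705.DL (ph ph_norm ph_conj ph_eq)
open Pool.Agent.Q231.RS (vdc_two)
open Pool.Agent.W186.EH (VB)

theorem VB_two (L lam : ℝ) (hlam : 0 < lam) : VB 2 L lam = L * √lam + 1 / √lam := by
  unfold VB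
  have e1 : (1 : ℝ) / ((2 : ℝ) ^ 2 - 2) = 1 / 2 := by norm_num
  have e2 : (1 : ℝ) - 4 / (2 : ℝ) ^ 2 = 0 := by norm_num
  rw [e1, e2, Real.rpow_zero, one_mul, Real.rpow_neg hlam.le, ← Real.sqrt_eq_rpow, one_div]

/-- the large range: `10 X^20 ≤ Z ≤ X^24`, `N = X^12` -/
theorem large_range {N a L : ℕ} {X Z : ℝ} (hX : 1 ≤ X) (hNX : (N : ℝ) = X ^ 12) (hN : 10 ≤ N)
    (hNa : N ≤ a) (haL : a + L ≤ 2 * N + 1) (hL1 : 2 * X ^ 5 < L) (hL2 : (L : ℝ) ≤ 2 * X ^ 7)
    (hZ1 : 10 * X ^ 20 < Z) (hZ2 : Z ≤ X ^ 24) :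
    ‖∑ n ∈ range L, ee (lph Z (a + L - 1) n)‖ ^ 2 ≤
      (10 ^ 6) ^ 2 * (1 + Real.log L) * X ^ 10 := by
  have hX0 : 0 < X := by linarith
  have hpow : ∀ {i j : ℕ}, i ≤ j → X ^ i ≤ X ^ j := fun h => pow_le_pow_right₀ hX h
  have hZ0 : 0 < Z := lt_trans (by positivity) hZ1
  have hLr1 : (1 : ℝ) ≤ L := by
    have : (1 : ℝ) ≤ X ^ 5 := one_le_pow₀ hX
    linarith
  have hL1' : 1 ≤ L := by exact_mod_cast hLr1
  have hlog : 0 ≤ Real.log L := Real.log_nonneg hLr1
  set lg : ℝ := 1 + Real.log L with hlg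
  have hlg1 : 1 ≤ lg := by linarith
  obtain ⟨s, hs0, hs⟩ : ∃ s : ℝ, 0 < s ∧ s ^ 2 = Z := ⟨√Z, Real.sqrt_pos.2 hZ0, Real.sq_sqrt hZ0.le⟩
  have hs12 : s ≤ X ^ 12 := by
    refine le_of_pow_le_pow_left₀ (n := 2) (by norm_num) (by positivity) ?_
    rw [hs, ← pow_mul]
    exact hZ2
  set H : ℕ := ⌈X ^ 4⌉₊ with hH
  have hX4 : 1 ≤ X ^ 4 := one_le_pow₀ hX
  have hH1 : X ^ 4 ≤ H := Nat.le_ceil _
  have hH2 : (H : ℝ) ≤ 2 * X ^ 4 := by
    have := Nat.ceil_lt_add_one (show (0 : ℝ) ≤ X ^ 4 by positivity)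
    rw [← hH] at this
    linarith
  have hHr1 : (1 : ℝ) ≤ H := by linarith
  have hHn : 1 ≤ H := by exact_mod_cast hHr1
  have hH0 : (0 : ℝ) < H := by linarith
  have hHL : H ≤ L := by
    have h1 : (H : ℝ) ≤ L := by
      have := hpow (show 4 ≤ 5 by norm_num)
      linarith
    exact_mod_cast h1
  set lam : ℝ := Z / (27 * (N : ℝ) ^ 3) with hlam
  have hlamX : lam = Z / (27 * X ^ 36) := by
    rw [hlam, hNX]
    ring
  have hlam0 : 0 < lam := by rw [hlamX]; positivity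
  have hHLl : (H : ℝ) * L * lam ≤ 1 := by
    calc (H : ℝ) * L * lam ≤ (2 * X ^ 4) * (2 * X ^ 7) * (X ^ 24 / (27 * X ^ 36)) := by
          rw [hlamX]
          gcongr
      _ = 4 * X ^ 35 / (27 * X ^ 36) := by ring
      _ ≤ 1 := by
          rw [div_le_one (by positivity)]
          have := hpow (show 35 ≤ 36 by norm_num)
          nlinarith [show 0 < X ^ 36 by positivity]
  -- `√(H lam)`
  set r : ℝ := √(H * lam) with hr
  have hr1 : s / (6 * X ^ 16) ≤ r := by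
    apply Real.le_sqrt_of_sq_le
    rw [div_pow, hs, hlamX]
    calc Z / (6 * X ^ 16) ^ 2 ≤ X ^ 4 * (Z / (27 * X ^ 36)) := by
          have e : X ^ 4 * (Z / (27 * X ^ 36)) = Z / (27 * X ^ 32) := by
            field_simp
          rw [e]
          apply div_le_div_of_nonneg_left hZ0.le (by positivity)
          have : (6 * X ^ 16) ^ 2 = 36 * X ^ 32 := by ring
          rw [this]
          have : 0 < X ^ 32 := by positivity
          linarith
      _ ≤ _ := by gcongr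
  have hr2 : r ≤ s / (3 * X ^ 16) := by
    rw [hr]
    apply Real.sqrt_le_iff.2
    refine ⟨by positivity, ?_⟩
    rw [div_pow, hs, hlamX]
    calc (H : ℝ) * (Z / (27 * X ^ 36)) ≤ (2 * X ^ 4) * (Z / (27 * X ^ 36)) := by gcongr
      _ = 2 * Z / (27 * X ^ 32) := by field_simp
      _ ≤ Z / (3 * X ^ 16) ^ 2 := by
          rw [div_le_div_iff₀ (by positivity) (by positivity)]
          have : 0 < Z * X ^ 32 := by positivity
          nlinarith
  have hr0 : 0 < r := lt_of_lt_of_le (by positivity) hr1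
  -- the common terms
  have t1 : (L : ℝ) ^ 2 / H ≤ 4 * X ^ 10 := by
    calc (L : ℝ) ^ 2 / H ≤ (2 * X ^ 7) ^ 2 / X ^ 4 := by gcongr
      _ = _ := by field_simp; norm_num
  have t2 : (L : ℝ) ≤ 2 * X ^ 10 := by
    have := hpow (show 7 ≤ 10 by norm_num)
    linarith
  have t3 : (L : ℝ) ^ 2 * r ≤ 2 * X ^ 10 := by
    calc (L : ℝ) ^ 2 * r ≤ (2 * X ^ 7) ^ 2 * (X ^ 12 / (3 * X ^ 16)) := by
          have : r ≤ X ^ 12 / (3 * X ^ 16) := hr2.trans (by gcongr)
          gcongr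
      _ = 4 / 3 * X ^ 10 := by field_simp; norm_num
      _ ≤ _ := by
          have : 0 < X ^ 10 := by positivity
          linarith
  have hc := lph_cond3 hZ0 hN hNa haL hL1'
  have hX10 : 0 < X ^ 10 := by positivity
  rcases le_or_gt Z (X ^ 22) with hcase | hcase
  · have hs11 : s ≤ X ^ 11 := by
      refine le_of_pow_le_pow_left₀ (n := 2) (by norm_num) (by positivity) ?_
      rw [hs, ← pow_mul]
      exact hcase
    have hsd1 := lph_sd_ge hZ0 hN hNa haL hL1' 0 (by omega)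
    have hsd2 := lph_sd_le hZ0 hN hNa hL1' 0 (by omega)
    set β := sd (lph Z (a + L - 1)) 0 with hβ
    have hβH : 1 / (2 * (H : ℝ)) < β := by
      refine lt_of_lt_of_le ?_ hsd1
      rw [hNX]
      calc 1 / (2 * (H : ℝ)) ≤ 1 / (2 * X ^ 4) := by gcongr
        _ < 10 * X ^ 20 / (18 * (X ^ 12) ^ 2) := by
            rw [div_lt_div_iff₀ (by positivity) (by positivity)]
            have : 0 < X ^ 24 := by positivity
            nlinarith
        _ ≤ Z / (18 * (X ^ 12) ^ 2) := by gcongr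
    have h := test3small hlam0 (by norm_num) hc hL1' H hHn hHL hHLl hβH
    rw [← hr, ← hβ] at h
    have t4 : 2 * β * L / r ≤ 96 * X ^ 10 := by
      have hβ0 : 0 < β := lt_trans (by positivity) hβH
      calc 2 * β * L / r ≤ 2 * (4 * Z / (N : ℝ) ^ 2) * (2 * X ^ 7) / (s / (6 * X ^ 16)) := by gcongr
        _ = 96 * s / X := by
            rw [hNX, ← hs]
            field_simp
            norm_num
        _ ≤ 96 * X ^ 11 / X := by gcongr
        _ = _ := by field_simp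
    refine h.trans ?_
    calc 19200 * (432 : ℝ) ^ 2 * lg * ((L : ℝ) ^ 2 / H + 2 * β * L / r + L + (L : ℝ) ^ 2 * r)
        ≤ 19200 * (432 : ℝ) ^ 2 * lg * (4 * X ^ 10 + 96 * X ^ 10 + 2 * X ^ 10 + 2 * X ^ 10) := by gcongr
      _ = (19200 * (432 : ℝ) ^ 2 * 104) * (lg * X ^ 10) := by ring
      _ ≤ ((10 ^ 6) ^ 2) * (lg * X ^ 10) := by
          apply mul_le_mul_of_nonneg_right _ (by positivity)
          norm_num
      _ = _ := by ring
  · have hs11 : X ^ 11 ≤ s := by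
      refine le_of_pow_le_pow_left₀ (n := 2) (by norm_num) (by positivity) ?_
      rw [hs, ← pow_mul]
      exact hcase.le
    have h := test3 hlam0 (by norm_num) hc hL1' H hHn hHL hHLl (X ^ 5) (X ^ 13 / s)
      (one_le_pow₀ hX) (by linarith [show 0 < X ^ 5 by positivity]) (by positivity)
    rw [← hr] at h
    have t4 : (L : ℝ) / (X ^ 13 / s * r) ≤ 12 * X ^ 10 := by
      calc (L : ℝ) / (X ^ 13 / s * r) ≤ (2 * X ^ 7) / (X ^ 13 / s * (s / (6 * X ^ 16))) := by gcongr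
        _ = _ := by field_simp; norm_num
    have t5 : X ^ 13 / s * L ≤ 2 * X ^ 10 := by
      calc X ^ 13 / s * L ≤ X ^ 13 / X ^ 11 * (2 * X ^ 7) := by gcongr
        _ = 2 * X ^ 9 := by field_simp
        _ ≤ _ := by
            have := hpow (show 9 ≤ 10 by norm_num)
            linarith
    have t6 : X ^ 13 / s * (L : ℝ) ^ 3 * lam ≤ 1 * X ^ 10 := by
      calc X ^ 13 / s * (L : ℝ) ^ 3 * lam ≤ X ^ 13 / s * (2 * X ^ 7) ^ 3 * lam := by gcongr
        _ = 8 / 27 * s / X ^ 2 := by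
            rw [hlamX, ← hs]
            field_simp
            norm_num
        _ ≤ 8 / 27 * X ^ 12 / X ^ 2 := by gcongr
        _ = 8 / 27 * X ^ 10 := by field_simp
        _ ≤ _ := by linarith
    have t7 : 1 / (X ^ 5 * lam) ≤ 27 * X ^ 10 := by
      calc 1 / (X ^ 5 * lam) ≤ 1 / (X ^ 5 * (X ^ 22 / (27 * X ^ 36))) := by
            rw [hlamX]
            gcongr
        _ = 27 * X ^ 9 := by field_simp
        _ ≤ _ := by
            have := hpow (show 9 ≤ 10 by norm_num)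
            linarith
    have t8 : (L : ℝ) ^ 2 / X ^ 5 ≤ 4 * X ^ 10 := by
      calc (L : ℝ) ^ 2 / X ^ 5 ≤ (2 * X ^ 7) ^ 2 / X ^ 5 := by gcongr
        _ = 4 * X ^ 9 := by field_simp; norm_num
        _ ≤ _ := by
            have := hpow (show 9 ≤ 10 by norm_num)
            linarith
    have t9 : (X ^ 5) ^ 2 ≤ 1 * X ^ 10 := by
      apply le_of_eq
      ring
    refine h.trans ?_
    calc 19200 * (432 : ℝ) ^ 2 * lg * ((L : ℝ) ^ 2 / H + L / (X ^ 13 / s * r) + L + (L : ℝ) ^ 2 * r +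
          X ^ 13 / s * L + X ^ 13 / s * (L : ℝ) ^ 3 * lam + 1 / (X ^ 5 * lam) + (L : ℝ) ^ 2 / X ^ 5 +
          (X ^ 5) ^ 2)
        ≤ 19200 * (432 : ℝ) ^ 2 * lg * (55 * X ^ 10) := by
          apply mul_le_mul_of_nonneg_left _ (by positivity)
          linarith
      _ = (19200 * (432 : ℝ) ^ 2 * 55) * (lg * X ^ 10) := by ring
      _ ≤ ((10 ^ 6) ^ 2) * (lg * X ^ 10) := by
          apply mul_le_mul_of_nonneg_right _ (by positivity)
          norm_num
      _ = _ := by ring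

/-- **the kernel** -/
theorem kerP : ∀ N a L : ℕ, 1 ≤ N → N ≤ a → a + L ≤ 2 * N + 1 →
    (L : ℝ) ≤ 2 * (N : ℝ) ^ (7 / 12 : ℝ) → ∀ t : ℝ, (N : ℝ) ^ (7 / 6 : ℝ) ≤ |t| → |t| ≤ 4 * (N : ℝ) ^ 2 →
    ‖∑ j ∈ range L, ph t (a + 1 * j)‖ ≤ 10 ^ 6 * (1 + Real.log (2 * N)) * (N : ℝ) ^ (5 / 12 : ℝ) := by
  intro N a L hN hNa haL hL t ht1 ht2
  have hN1 : (1 : ℝ) ≤ N := by exact_mod_cast hN
  have hN0 : (0 : ℝ) < N := by linarith
  obtain ⟨X, hXd⟩ : ∃ X : ℝ, X = (N : ℝ) ^ (1 / 12 : ℝ) := ⟨_, rfl⟩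
  have hX : 1 ≤ X := by rw [hXd]; exact Real.one_le_rpow hN1 (by norm_num)
  have hX0 : 0 < X := by linarith
  have hXp : ∀ k : ℕ, X ^ k = (N : ℝ) ^ ((k : ℝ) / 12) := by
    intro k
    rw [hXd, ← Real.rpow_natCast, ← Real.rpow_mul hN0.le]
    congr 1; ring
  have e12 : (N : ℝ) = X ^ 12 := by rw [hXp]; norm_num
  have e7 : (N : ℝ) ^ (7 / 12 : ℝ) = X ^ 7 := by rw [hXp]; norm_num
  have e14 : (N : ℝ) ^ (7 / 6 : ℝ) = X ^ 14 := by rw [hXp]; norm_num
  have e5 : (N : ℝ) ^ (5 / 12 : ℝ) = X ^ 5 := by rw [hXp]; norm_num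
  rw [e5]
  rw [e7] at hL
  rw [e14] at ht1
  rw [show (4 : ℝ) * (N : ℝ) ^ 2 = 4 * X ^ 24 by rw [e12]; ring] at ht2
  have hlogN : 0 ≤ Real.log (2 * N) := Real.log_nonneg (by linarith)
  set lg : ℝ := 1 + Real.log (2 * N) with hlg
  have hlg1 : 1 ≤ lg := by rw [hlg]; linarith
  have htriv := Pool.Agent.R327.SI.ker_triv t a 1 L
  have hX5 : 1 ≤ X ^ 5 := one_le_pow₀ hX
  rcases Nat.lt_or_ge N 10 with hN10 | hN10
  · refine htriv.trans ?_
    have h1 : (L : ℝ) ≤ 20 := by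
      have h2 : (N : ℝ) ≤ 10 := by exact_mod_cast hN10.le
      have h3 : X ^ 7 ≤ X ^ 12 := pow_le_pow_right₀ hX (by norm_num)
      rw [← e12] at h3
      linarith
    have h2 : 1 ≤ lg * X ^ 5 := by nlinarith
    nlinarith
  rcases le_or_gt (L : ℝ) (2 * X ^ 5) with hLs | hLs
  · refine htriv.trans ?_
    have h2 : X ^ 5 ≤ lg * X ^ 5 := by nlinarith
    nlinarith
  have hL1 : 1 ≤ L := by
    have : (1 : ℝ) ≤ L := by linarith
    exact_mod_cast this
  rw [ker_lph t a L (by omega)]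
  set Z : ℝ := |t| / (2 * Real.pi) with hZ
  have hpi := Real.pi_pos
  have hpi3 := Real.pi_gt_three
  have hpi4 := Real.pi_lt_d2
  have ht0 : 0 < |t| := lt_of_lt_of_le (by positivity) ht1
  have hZ0 : 0 < Z := by rw [hZ]; positivity
  have hZt : |t| = 2 * Real.pi * Z := by rw [hZ]; field_simp
  have hZ1 : X ^ 14 ≤ 7 * Z := by
    have : 2 * Real.pi * Z ≤ 7 * Z := by nlinarith
    linarith
  have hZ2 : Z ≤ X ^ 24 := by
    have h1 : 6 * Z ≤ 2 * Real.pi * Z := by nlinarith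
    have : 0 < X ^ 24 := by positivity
    linarith
  have hLN : (L : ℝ) ≤ 2 * N := by
    have h3 : X ^ 7 ≤ X ^ 12 := pow_le_pow_right₀ hX (by norm_num)
    rw [← e12] at h3
    linarith
  have hlogL : 1 + Real.log L ≤ lg := by
    have := Real.log_le_log (by exact_mod_cast hL1) hLN
    linarith
  rcases le_or_gt Z (10 * X ^ 20) with hcase | hcase
  · -- the second derivative test
    set lam : ℝ := Z / (18 * (N : ℝ) ^ 2) with hlam
    have hlamX : lam = Z / (18 * X ^ 24) := by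
      rw [hlam, e12]
      ring
    have hlam0 : 0 < lam := by rw [hlamX]; positivity
    have h := vdc_two 72 (by norm_num) L L (lph Z (a + L - 1)) lam hL1 le_rfl hlam0
      (cond_mono (lph_cond2 hZ0 hN10 hNa haL hL1) (by omega))
    rw [VB_two _ _ hlam0] at h
    have hs1 : 1 / (12 * X ^ 5) ≤ √lam := by
      apply Real.le_sqrt_of_sq_le
      rw [hlamX]
      calc (1 / (12 * X ^ 5)) ^ 2 ≤ (X ^ 14 / 7) / (18 * X ^ 24) := by
            have e : (X ^ 14 / 7) / (18 * X ^ 24) = 1 / (126 * X ^ 10) := by field_simp; norm_num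
            rw [e, div_pow, one_pow]
            apply one_div_le_one_div_of_le (by positivity)
            have : 0 < X ^ 10 := by positivity
            have e2 : (12 * X ^ 5) ^ 2 = 144 * X ^ 10 := by ring
            rw [e2]
            linarith
        _ ≤ Z / (18 * X ^ 24) := by
            gcongr
            linarith
    have hs2 : √lam ≤ 1 / X ^ 2 := by
      apply Real.sqrt_le_iff.2
      refine ⟨by positivity, ?_⟩
      rw [hlamX]
      calc Z / (18 * X ^ 24) ≤ 10 * X ^ 20 / (18 * X ^ 24) := by gcongr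
        _ = (10 / 18) * (1 / X ^ 4) := by field_simp
        _ ≤ 1 * (1 / X ^ 4) := by gcongr; norm_num
        _ = (1 / X ^ 2) ^ 2 := by field_simp
    have hsl : 0 < √lam := Real.sqrt_pos.2 hlam0
    have h1 : (L : ℝ) * √lam ≤ 2 * X ^ 5 := by
      calc (L : ℝ) * √lam ≤ (2 * X ^ 7) * (1 / X ^ 2) := by gcongr
        _ = _ := by field_simp
    have h2 : 1 / √lam ≤ 12 * X ^ 5 := by
      rw [div_le_iff₀ hsl]
      rw [div_le_iff₀ (by positivity)] at hs1
      linarith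
    calc _ ≤ 20 * 72 * (L * √lam + 1 / √lam) := h
      _ ≤ 20 * 72 * (2 * X ^ 5 + 12 * X ^ 5) := by gcongr
      _ = 20160 * X ^ 5 := by ring
      _ ≤ 10 ^ 6 * lg * X ^ 5 := by
          have h2 : X ^ 5 ≤ lg * X ^ 5 := by nlinarith
          nlinarith
  · have h := large_range hX e12 hN10 hNa haL hLs hL hcase hZ2
    refine le_of_pow_le_pow_left₀ (n := 2) (by norm_num) (by positivity) ?_
    refine h.trans ?_
    calc (10 ^ 6) ^ 2 * (1 + Real.log L) * X ^ 10 ≤ (10 ^ 6) ^ 2 * lg * X ^ 10 := by gcongr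
      _ ≤ (10 ^ 6) ^ 2 * lg ^ 2 * X ^ 10 := by
          have : lg ≤ lg ^ 2 := by nlinarith
          gcongr
      _ = _ := by ring

end Pool.Agent.H73.GS
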