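import Pool.Agent.H73.GS.F
import Pool.Graph.R_seed8.R327.SIFin

set_option autoImplicit false

/-!
The sum of the kernel over well spaced points `N ≤ |t| ≤ N^(7/6)`, and the large sieve inequality.
-/

namespace Pool.Agent.H73.GS

open Finset
open Pool.Agent.Helper153.Vdc (ee dd Cond ee_norm triv_bound)
open Pool.Agent.TH705.DL (ph ph_norm ph_conj ph_eq Sep)
open Pool.Agent.Q231.RS (vdc_two)
open Pool.Agent.W186.EH (VB)
open Pool.Agent.R327.SI (schur near card_sep AP sum_AP card_AP mem_AP ker_triv ker_abs)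

/-- the kernel for `N ≤ t ≤ N^(7/6)` -/
theorem mid_one {N a L : ℕ} {X t : ℝ} (hX : 1 ≤ X) (hNX : (N : ℝ) = X ^ 12) (hN : 10 ≤ N)
    (hNa : N ≤ a) (haL : a + L ≤ 2 * N + 1) (hL0 : 1 ≤ L) (hL2 : (L : ℝ) ≤ 2 * X ^ 7)
    (ht1 : X ^ 12 ≤ t) (ht2 : t ≤ X ^ 14) :
    ‖∑ j ∈ range L, ph t (a + 1 * j)‖ ≤ 18720 * X ^ 6 ∧
    ‖∑ j ∈ range L, ph t (a + 1 * j)‖ * |di (t / (2 * Real.pi) / a)| ≤ 10600 * X ^ 2 := by
  have hX0 : 0 < X := by linarith
  have ht0 : 0 < t := lt_of_lt_of_le (by positivity) ht1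
  rw [ker_lph t a L (by omega), abs_of_pos ht0]
  set Z : ℝ := t / (2 * Real.pi) with hZ
  have hpi := Real.pi_pos
  have hpi3 := Real.pi_gt_three
  have hpi4 := Real.pi_lt_d2
  have hZ0 : 0 < Z := by rw [hZ]; positivity
  have hZt : t = 2 * Real.pi * Z := by rw [hZ]; field_simp
  have hZ1 : X ^ 12 ≤ 7 * Z := by
    have : 2 * Real.pi * Z ≤ 7 * Z := by nlinarith
    linarith
  have hZ2 : 6 * Z ≤ X ^ 14 := by
    have h1 : 6 * Z ≤ 2 * Real.pi * Z := by nlinarith
    linarith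
  set K : ℝ := ‖∑ n ∈ range L, ee (lph Z (a + L - 1) n)‖ with hK
  have hK0 : 0 ≤ K := norm_nonneg _
  set lam : ℝ := Z / (18 * (N : ℝ) ^ 2) with hlam
  have hlamX : lam = Z / (18 * X ^ 24) := by
    rw [hlam, hNX]
    ring
  have hlam0 : 0 < lam := by rw [hlamX]; positivity
  have hc2 : Cond 2 (lph Z (a + L - 1)) L lam 72 :=
    cond_mono (lph_cond2 hZ0 hN hNa haL hL0) (by omega)
  have h := vdc_two 72 (by norm_num) L L (lph Z (a + L - 1)) lam hL0 le_rfl hlam0 hc2
  rw [VB_two _ _ hlam0, ← hK] at h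
  have hs1 : 1 / (12 * X ^ 6) ≤ √lam := by
    apply Real.le_sqrt_of_sq_le
    rw [hlamX]
    calc (1 / (12 * X ^ 6)) ^ 2 ≤ (X ^ 12 / 7) / (18 * X ^ 24) := by
          have e : (X ^ 12 / 7) / (18 * X ^ 24) = 1 / (126 * X ^ 12) := by field_simp; norm_num
          rw [e, div_pow, one_pow]
          apply one_div_le_one_div_of_le (by positivity)
          have : 0 < X ^ 12 := by positivity
          have e2 : (12 * X ^ 6) ^ 2 = 144 * X ^ 12 := by ring
          rw [e2]
          linarith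
      _ ≤ Z / (18 * X ^ 24) := by
          gcongr
          linarith
  have hs2 : √lam ≤ 1 / (10 * X ^ 5) := by
    apply Real.sqrt_le_iff.2
    refine ⟨by positivity, ?_⟩
    rw [hlamX]
    calc Z / (18 * X ^ 24) ≤ (X ^ 14 / 6) / (18 * X ^ 24) := by
          gcongr
          linarith
      _ = (1 / 108) * (1 / X ^ 10) := by field_simp; norm_num
      _ ≤ (1 / 100) * (1 / X ^ 10) := by gcongr; norm_num
      _ = (1 / (10 * X ^ 5)) ^ 2 := by field_simp; norm_num
  have hsl : 0 < √lam := Real.sqrt_pos.2 hlam0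
  set s : ℝ := √lam with hs
  have hss : s ^ 2 = lam := Real.sq_sqrt hlam0.le
  have hLs : (L : ℝ) * s ≤ X ^ 2 / 5 := by
    calc (L : ℝ) * s ≤ (2 * X ^ 7) * (1 / (10 * X ^ 5)) := by gcongr
      _ = _ := by field_simp; norm_num
  have h1s : 1 / s ≤ 12 * X ^ 6 := by
    rw [div_le_iff₀ hsl]
    rw [div_le_iff₀ (by positivity)] at hs1
    linarith
  have hX26 : X ^ 2 ≤ X ^ 6 := pow_le_pow_right₀ hX (by norm_num)
  refine ⟨by linarith, ?_⟩
  -- the second bound
  have hNr : (10 : ℝ) ≤ N := by exact_mod_cast hN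
  have hN0 : (0 : ℝ) < N := by linarith
  have har : (N : ℝ) ≤ a := by exact_mod_cast hNa
  have ha0 : (0 : ℝ) < a := by linarith
  have hLr : (1 : ℝ) ≤ L := by exact_mod_cast hL0
  set x : ℝ := Z / a with hx
  set ρ : ℝ := x * L / a with hρ
  have hx0 : 0 < x := by positivity
  have hρ0 : 0 < ρ := by positivity
  have hρ1 : ρ ≤ 36 * X ^ 7 * s ^ 2 := by
    calc ρ = Z * L / (a * a) := by rw [hρ, hx]; field_simp
      _ ≤ Z * (2 * X ^ 7) / (N * N) := by gcongr
      _ = _ := by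
          rw [hss, hlamX, hNX]
          field_simp
          norm_num
  set D : ℝ := |di x| with hD
  have hD0 : 0 ≤ D := abs_nonneg _
  have hD2 : D ≤ 1 / 2 := di_abs _
  have hX2 : 1 ≤ X ^ 2 := one_le_pow₀ hX
  rcases le_or_gt (2 * ρ) D with hcase | hcase
  · have hDp : 0 < D := by linarith
    have hu : ((a + L - 1 : ℕ) : ℝ) = a + L - 1 := by
      rw [Nat.cast_sub (by omega)]
      push_cast
      ring
    -- first differences
    have hdf : ∀ n, n + 1 < L → x - ρ ≤ lph Z (a + L - 1) (n + 1) - lph Z (a + L - 1) n ∧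
        lph Z (a + L - 1) (n + 1) - lph Z (a + L - 1) n ≤ x := by
      intro n hn
      have hnr : (n : ℝ) + 2 ≤ L := by
        have : n + 2 ≤ L := by omega
        exact_mod_cast this
      have hn0 : (0 : ℝ) ≤ n := Nat.cast_nonneg n
      unfold lph
      rw [hu]
      push_cast
      set v : ℝ := (a : ℝ) + L - 1 - (n + 1) with hv
      have hva : (a : ℝ) ≤ v := by rw [hv]; linarith
      have hv0 : 0 < v := by linarith
      have hvn : (a : ℝ) + L - 1 - n = v + 1 := by rw [hv]; ring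
      rw [hvn]
      have e : -(Z * Real.log v) - -(Z * Real.log (v + 1)) = Z * Real.log ((v + 1) / v) := by
        rw [Real.log_div (by linarith) (by linarith)]
        ring
      rw [e]
      have h3 := Real.log_le_sub_one_of_pos (show 0 < (v + 1) / v by positivity)
      have h4 := Real.one_sub_inv_le_log_of_pos (show 0 < (v + 1) / v by positivity)
      have e3 : (v + 1) / v - 1 = 1 / v := by field_simp; ring
      have e4 : 1 - ((v + 1) / v)⁻¹ = 1 / (v + 1) := by
        rw [inv_div]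
        field_simp
        ring
      rw [e3] at h3
      rw [e4] at h4
      constructor
      · have h5 : (1 : ℝ) / (a + L) ≤ 1 / (v + 1) := by
          apply one_div_le_one_div_of_le (by linarith)
          rw [hv]
          linarith
        have h6 : x - ρ ≤ Z * (1 / (a + L)) := by
          rw [hρ, hx]
          rw [mul_one_div, le_div_iff₀ (by positivity)]
          have e5 : (Z / a - Z / a * L / a) * (a + L) = Z * (1 - (L : ℝ) ^ 2 / (a : ℝ) ^ 2) := by
            field_simp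
            ring
          rw [e5]
          have : 0 ≤ (L : ℝ) ^ 2 / (a : ℝ) ^ 2 := by positivity
          nlinarith
        calc x - ρ ≤ Z * (1 / (a + L)) := h6
          _ ≤ Z * (1 / (v + 1)) := by gcongr
          _ ≤ _ := by gcongr
      · calc Z * Real.log ((v + 1) / v) ≤ Z * (1 / v) := by gcongr
          _ ≤ Z * (1 / a) := by gcongr
          _ = x := by rw [hx]; ring
    have h2 : K ≤ 2 / (D / 3) + 1 := by
      set k : ℤ := round x with hk
      have hdi : di x = x - k := rfl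
      rcases le_total 0 (di x) with hsg | hsg
      · have e : D = x - k := by rw [hD, abs_of_nonneg hsg, hdi]
        refine all_good hlam0 hc2 (θ := D / 3) (by positivity) k ?_
        intro n hn
        have := hdf n hn
        constructor <;> linarith [this.1, this.2]
      · have e : D = k - x := by rw [hD, abs_of_nonpos hsg, hdi]; ring
        refine all_good hlam0 hc2 (θ := D / 3) (by positivity) (k - 1) ?_
        intro n hn
        have := hdf n hn
        push_cast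
        constructor <;> linarith [this.1, this.2]
    calc K * D ≤ (2 / (D / 3) + 1) * D := by gcongr
      _ = 6 + D := by field_simp; ring
      _ ≤ 7 := by linarith
      _ ≤ _ := by linarith
  · have h3 : K ≤ 1440 * (L * s + 1 / s) := by linarith
    calc K * D ≤ (1440 * (L * s + 1 / s)) * (2 * (36 * X ^ 7 * s ^ 2)) := by
          have : D ≤ 2 * (36 * X ^ 7 * s ^ 2) := by linarith
          gcongr
      _ = 103680 * X ^ 7 * ((L * s) * s ^ 2 + s) := by
          field_simp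
          ring
      _ ≤ 103680 * X ^ 7 * ((X ^ 2 / 5) * (1 / (10 * X ^ 5)) ^ 2 + 1 / (10 * X ^ 5)) := by gcongr
      _ = 103680 * (1 / (500 * X) + X ^ 2 / 10) := by
          field_simp
          ring
      _ ≤ 103680 * (1 / 500 + X ^ 2 / 10) := by
          have : 1 / (500 * X) ≤ 1 / 500 := by
            apply one_div_le_one_div_of_le (by norm_num)
            linarith
          gcongr
      _ ≤ _ := by linarith

/-- the sum over positive points -/
theorem mid_pos {N a L : ℕ} {X : ℝ} (hX : 1 ≤ X) (hNX : (N : ℝ) = X ^ 12) (hN : 10 ≤ N)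
    (hNa : N ≤ a) (haL : a + L ≤ 2 * N + 1) (hL0 : 1 ≤ L) (hL2 : (L : ℝ) ≤ 2 * X ^ 7)
    (S : Finset ℝ) (hS : Sep S) (hSr : ∀ t ∈ S, X ^ 12 ≤ t ∧ t ≤ X ^ 14) :
    ∑ t ∈ S, ‖∑ j ∈ range L, ph t (a + 1 * j)‖ ≤ 2700000 * (1 + Real.log (2 * N)) * X ^ 16 := by
  classical
  have hX0 : 0 < X := by linarith
  have hX2 : 1 ≤ X ^ 2 := one_le_pow₀ hX
  have hpi := Real.pi_pos
  have hpi3 := Real.pi_gt_three
  have hpi4 := Real.pi_lt_d2
  have hNr : (10 : ℝ) ≤ N := by exact_mod_cast hN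
  have hN0 : (0 : ℝ) < N := by linarith
  have har : (N : ℝ) ≤ a := by exact_mod_cast hNa
  have ha0 : (0 : ℝ) < a := by linarith
  have ha2 : (a : ℝ) ≤ 2 * N := by
    have : a ≤ 2 * N := by omega
    exact_mod_cast this
  have hlogN : 0 ≤ Real.log (2 * N) := Real.log_nonneg (by linarith)
  set lg : ℝ := 1 + Real.log (2 * N) with hlg
  have hlg1 : 1 ≤ lg := by rw [hlg]; linarith
  set K : ℝ → ℝ := fun t => ‖∑ j ∈ range L, ph t (a + 1 * j)‖ with hK
  set x : ℝ → ℝ := fun t => t / (2 * Real.pi) / a with hx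
  have hone : ∀ t ∈ S, K t ≤ 18720 * X ^ 6 ∧ K t * |di (x t)| ≤ 10600 * X ^ 2 := by
    intro t ht
    exact mid_one hX hNX hN hNa haL hL0 hL2 (hSr t ht).1 (hSr t ht).2
  -- one integer part
  have hgrp : ∀ k : ℤ, ∑ t ∈ S.filter (fun t => round (x t) = k), K t ≤ 900000 * lg * X ^ 14 := by
    intro k
    have h1 := sep_sum (S.filter (fun t => round (x t) = k)) (fun t => di (x t)) K (1 / (13 * (N : ℝ)))
      (18720 * X ^ 6) (10600 * X ^ 2) (13 * N) (by positivity) (by
        apply le_of_eq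
        push_cast
        field_simp) (by positivity) (by positivity) (fun t _ => di_abs _) (by
        intro t ht u hu hne
        rw [mem_filter] at ht hu
        have h2 := hS t ht.1 u hu.1 hne
        have e : di (x t) - di (x u) = (t - u) / (2 * Real.pi * a) := by
          unfold di
          rw [ht.2, hu.2, hx]
          simp only
          field_simp
          ring
        rw [e, abs_div, abs_of_pos (show 0 < 2 * Real.pi * a by positivity)]
        rw [div_le_div_iff₀ (by positivity) (by positivity), one_mul]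
        have h3 : 2 * Real.pi * a ≤ 13 * N := by nlinarith
        nlinarith) (fun t ht => (hone t (mem_filter.1 ht).1).1)
        (fun t ht => (hone t (mem_filter.1 ht).1).2)
    refine h1.trans ?_
    have hlog13 : 1 + Real.log ((13 * N : ℕ) : ℝ) ≤ 3 * lg := by
      have e : ((13 * N : ℕ) : ℝ) = (13 / 2) * (2 * N) := by push_cast; ring
      rw [e, Real.log_mul (by norm_num) (by positivity)]
      have h4 : Real.log (13 / 2) ≤ 2 := by
        rw [Real.log_le_iff_le_exp (by norm_num)]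
        have h5 := Real.exp_one_gt_d9
        have e2 : Real.exp 2 = Real.exp 1 * Real.exp 1 := by
          rw [← Real.exp_add]; norm_num
        rw [e2]
        nlinarith
      linarith
    have hX614 : X ^ 6 ≤ X ^ 14 := pow_le_pow_right₀ hX (by norm_num)
    calc 2 * (18720 * X ^ 6) + 2 * (10600 * X ^ 2) / (1 / (13 * (N : ℝ))) *
          (1 + Real.log ((13 * N : ℕ) : ℝ))
        ≤ 2 * (18720 * X ^ 6) + 2 * (10600 * X ^ 2) / (1 / (13 * (N : ℝ))) * (3 * lg) := by gcongr
      _ = 37440 * X ^ 6 + 826800 * lg * X ^ 14 := by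
          rw [hNX]
          field_simp
          ring
      _ ≤ 37440 * (lg * X ^ 14) + 826800 * lg * X ^ 14 := by
          have : X ^ 6 ≤ lg * X ^ 14 := by nlinarith [show 0 < X ^ 14 by positivity]
          linarith
      _ ≤ _ := by
          have : 0 < lg * X ^ 14 := by positivity
          linarith
  -- all integer parts
  have hmaps : ∀ t ∈ S, round (x t) ∈ Icc (0 : ℤ) ⌈X ^ 2⌉ := by
    intro t ht
    have h1 := hSr t ht
    have hx0 : 0 < x t := by
      have : 0 < t := lt_of_lt_of_le (by positivity) h1.1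
      simp only [hx]
      positivity
    have hx1 : x t ≤ X ^ 2 / 6 := by
      simp only [hx]
      rw [div_div, div_le_div_iff₀ (by positivity) (by norm_num)]
      have h3 : 6 * X ^ 12 ≤ 2 * Real.pi * a := by
        rw [hNX] at har
        nlinarith
      calc t * 6 ≤ X ^ 14 * 6 := by gcongr; exact h1.2
        _ = X ^ 2 * (6 * X ^ 12) := by ring
        _ ≤ _ := by gcongr
    have h2 := abs_le.1 (abs_sub_round (x t))
    rw [mem_Icc]
    constructor
    · have h3 : (-1 : ℝ) < round (x t) := by linarith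
      have h4 : (-1 : ℤ) < round (x t) := by exact_mod_cast h3
      omega
    · have h3 : (round (x t) : ℝ) ≤ X ^ 2 := by linarith
      have h4 : (round (x t) : ℝ) ≤ (⌈X ^ 2⌉ : ℤ) := h3.trans (Int.le_ceil _)
      exact_mod_cast h4
  rw [← sum_fiberwise_of_maps_to hmaps]
  calc ∑ k ∈ Icc (0 : ℤ) ⌈X ^ 2⌉, ∑ t ∈ S.filter (fun t => round (x t) = k), K t
      ≤ ∑ k ∈ Icc (0 : ℤ) ⌈X ^ 2⌉, 900000 * lg * X ^ 14 := sum_le_sum fun k _ => hgrp k
    _ = ((Icc (0 : ℤ) ⌈X ^ 2⌉).card : ℝ) * (900000 * lg * X ^ 14) := by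
        rw [sum_const, nsmul_eq_mul]
    _ ≤ (3 * X ^ 2) * (900000 * lg * X ^ 14) := by
        have h1 : ((Icc (0 : ℤ) ⌈X ^ 2⌉).card : ℝ) ≤ 3 * X ^ 2 := by
          rw [Int.card_Icc]
          have h2 : (0 : ℤ) ≤ ⌈X ^ 2⌉ := Int.ceil_nonneg (by positivity)
          have h3 : (((⌈X ^ 2⌉ + 1 - 0).toNat : ℤ) : ℝ) = ((⌈X ^ 2⌉ + 1 : ℤ) : ℝ) := by
            rw [Int.toNat_of_nonneg (by omega)]
            simp
          have h4 := Int.ceil_lt_add_one (X ^ 2)
          push_cast at h3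
          have h5 : (((⌈X ^ 2⌉ + 1 - 0).toNat : ℕ) : ℝ) = (⌈X ^ 2⌉ : ℝ) + 1 := by
            exact_mod_cast h3
          rw [h5]
          linarith
        gcongr
    _ = _ := by ring

theorem mid {N a L : ℕ} {X : ℝ} (hX : 1 ≤ X) (hNX : (N : ℝ) = X ^ 12) (hN : 10 ≤ N)
    (hNa : N ≤ a) (haL : a + L ≤ 2 * N + 1) (hL0 : 1 ≤ L) (hL2 : (L : ℝ) ≤ 2 * X ^ 7)
    (S : Finset ℝ) (hS : Sep S) (hSr : ∀ t ∈ S, X ^ 12 ≤ |t| ∧ |t| ≤ X ^ 14) :
    ∑ t ∈ S, ‖∑ j ∈ range L, ph t (a + 1 * j)‖ ≤ 5400000 * (1 + Real.log (2 * N)) * X ^ 16 := by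
  classical
  rw [← sum_filter_add_sum_filter_not S (fun t => 0 ≤ t)]
  have h1 := mid_pos hX hNX hN hNa haL hL0 hL2 (S.filter (fun t => 0 ≤ t)) (by
    intro t ht u hu hne
    exact hS t (mem_filter.1 ht).1 u (mem_filter.1 hu).1 hne) (by
    intro t ht
    rw [mem_filter] at ht
    have := hSr t ht.1
    rwa [abs_of_nonneg ht.2] at this)
  have h2 : ∑ t ∈ S.filter (fun t => ¬ 0 ≤ t), ‖∑ j ∈ range L, ph t (a + 1 * j)‖ ≤
      2700000 * (1 + Real.log (2 * N)) * X ^ 16 := by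
    have hinj : Set.InjOn (fun t : ℝ => -t) ((S.filter (fun t => ¬ 0 ≤ t) : Finset ℝ) : Set ℝ) :=
      fun t _ u _ h => neg_injective h
    have e : ∑ t ∈ S.filter (fun t => ¬ 0 ≤ t), ‖∑ j ∈ range L, ph t (a + 1 * j)‖ =
        ∑ t ∈ (S.filter (fun t => ¬ 0 ≤ t)).image (fun t => -t), ‖∑ j ∈ range L, ph t (a + 1 * j)‖ := by
      rw [sum_image hinj]
      apply sum_congr rfl
      intro t _
      rw [ker_abs t, ker_abs (-t), abs_neg]
    rw [e]
    apply mid_pos hX hNX hN hNa haL hL0 hL2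
    · intro t ht u hu hne
      rw [mem_image] at ht hu
      obtain ⟨t', ht', rfl⟩ := ht
      obtain ⟨u', hu', rfl⟩ := hu
      have h3 : t' ≠ u' := by rintro rfl; exact hne rfl
      have := hS t' (mem_filter.1 ht').1 u' (mem_filter.1 hu').1 h3
      rw [show -t' - -u' = -(t' - u') by ring, abs_neg]
      exact this
    · intro t ht
      rw [mem_image] at ht
      obtain ⟨t', ht', rfl⟩ := ht
      rw [mem_filter, not_le] at ht'
      have := hSr t' ht'.1
      rwa [abs_of_neg ht'.2] at this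
  linarith

/-- **the large sieve inequality** for the coefficients supported on a short interval -/
theorem ls712 : ∀ N a L : ℕ, 1 ≤ N → N ≤ a → a + L ≤ 2 * N + 1 →
    (L : ℝ) ≤ 2 * (N : ℝ) ^ (7 / 12 : ℝ) → ∀ (T x : ℝ), T ≤ 4 * (N : ℝ) ^ 2 → ∀ W : Finset ℝ, Sep W →
    (∀ t ∈ W, x ≤ t ∧ t ≤ x + T) → ∀ b : ℕ → ℂ,
    ∑ t ∈ W, ‖∑ n ∈ AP a 1 L, b n * ph t n‖ ^ 2 ≤ 10000000 * (1 + Real.log (2 * N)) ^ 2 *
      ((N : ℝ) ^ (4 / 3 : ℝ) + W.card * (N : ℝ) ^ (5 / 12 : ℝ)) * ∑ n ∈ AP a 1 L, ‖b n‖ ^ 2 := by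
  classical
  intro N a L hN hNa haL hL T x hT W hW hWT b
  have hN1 : (1 : ℝ) ≤ N := by exact_mod_cast hN
  have hN0 : (0 : ℝ) < N := by linarith
  obtain ⟨X, hXd⟩ : ∃ X : ℝ, X = (N : ℝ) ^ (1 / 12 : ℝ) := ⟨_, rfl⟩
  have hX : 1 ≤ X := by rw [hXd]; exact Real.one_le_rpow hN1 (by norm_num)
  have hX0 : 0 < X := by linarith
  have hXp : ∀ k : ℕ, X ^ k = (N : ℝ) ^ ((k : ℝ) / 12) := by
    intro k
    rw [hXd, ← Real.rpow_natCast, ← Real.rpow_mul hN0.le]
    congr 1; ring
  have e12 : (N : ℝ) = X ^ 12 := by rw [hXp]; norm_num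
  have e7 : (N : ℝ) ^ (7 / 12 : ℝ) = X ^ 7 := by rw [hXp]; norm_num
  have e14 : (N : ℝ) ^ (7 / 6 : ℝ) = X ^ 14 := by rw [hXp]; norm_num
  have e5 : (N : ℝ) ^ (5 / 12 : ℝ) = X ^ 5 := by rw [hXp]; norm_num
  have e16 : (N : ℝ) ^ (4 / 3 : ℝ) = X ^ 16 := by rw [hXp]; norm_num
  clear hXp hXd
  have hlogN : 0 ≤ Real.log (2 * N) := Real.log_nonneg (by linarith)
  have hL2 : (L : ℝ) ≤ 2 * X ^ 7 := by rwa [e7] at hL
  set lg : ℝ := 1 + Real.log (2 * N) with hlg
  have hlg1 : 1 ≤ lg := by rw [hlg]; linarith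
  rw [e16, e5]
  apply schur
  · positivity
  intro t ht
  have hker : ∀ s : ℝ, ∑ n ∈ AP a 1 L, ph (t - s) n = ∑ j ∈ range L, ph (t - s) (a + 1 * j) :=
    fun s => sum_AP a 1 L le_rfl _
  rcases Nat.eq_zero_or_pos L with hL0 | hL1
  · subst hL0
    simp only [hker, range_zero, sum_empty, norm_zero, sum_const_zero]
    positivity
  rcases Nat.lt_or_ge N 10 with hN10 | hN10
  · -- small `N`
    have h1 : (L : ℝ) ≤ 20 := by
      have h2 : (N : ℝ) ≤ 10 := by exact_mod_cast hN10.le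
      have h3 : X ^ 7 ≤ X ^ 12 := pow_le_pow_right₀ hX (by norm_num)
      rw [← e12] at h3
      linarith
    calc ∑ s ∈ W, ‖∑ n ∈ AP a 1 L, ph (t - s) n‖ ≤ ∑ s ∈ W, (20 : ℝ) := by
          apply sum_le_sum
          intro s _
          rw [hker]
          exact (ker_triv _ _ _ _).trans h1
      _ = 20 * W.card := by rw [sum_const, nsmul_eq_mul]; ring
      _ ≤ _ := by
          have h5 : 1 ≤ X ^ 5 := one_le_pow₀ hX
          have h6 : (0 : ℝ) ≤ W.card := Nat.cast_nonneg _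
          have h7 : (W.card : ℝ) ≤ W.card * X ^ 5 := by nlinarith
          have h8 : 0 < X ^ 16 := by positivity
          have h9 : 1 ≤ lg ^ 2 := one_le_pow₀ hlg1
          calc 20 * (W.card : ℝ) ≤ 10000000 * 1 * (X ^ 16 + W.card * X ^ 5) := by nlinarith
            _ ≤ _ := by gcongr
  have hP : ∀ n ∈ AP a 1 L, 1 ≤ n ∧ n ≤ 2 * N := by
    intro n hn
    obtain ⟨j, hj, rfl⟩ := mem_AP.1 hn
    constructor <;> omega
  -- differences
  have hsepd : ∀ V : Finset ℝ, V ⊆ W → Sep (V.image (fun s => t - s)) := by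
    intro V hV s hs s' hs' hne
    rw [mem_image] at hs hs'
    obtain ⟨r, hr, rfl⟩ := hs
    obtain ⟨r', hr', rfl⟩ := hs'
    have h3 : r ≠ r' := by rintro rfl; exact hne rfl
    have h4 := hW r (hV hr) r' (hV hr') h3
    rw [show t - r - (t - r') = -(r - r') by ring, abs_neg]
    exact h4
  have himg : ∀ V : Finset ℝ, ∑ s ∈ V, ‖∑ n ∈ AP a 1 L, ph (t - s) n‖ =
      ∑ s ∈ V.image (fun s => t - s), ‖∑ n ∈ AP a 1 L, ph s n‖ := by
    intro V
    rw [sum_image]
    intro s _ s' _ h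
    simpa using h
  -- three ranges
  set W1 := W.filter (fun s => |t - s| ≤ X ^ 12) with hW1
  set W' := W.filter (fun s => ¬ |t - s| ≤ X ^ 12) with hW'
  have hX1412 : X ^ 12 ≤ X ^ 14 := pow_le_pow_right₀ hX (by norm_num)
  have s1 : ∑ s ∈ W1, ‖∑ n ∈ AP a 1 L, ph (t - s) n‖ ≤ 20 * lg ^ 2 * X ^ 16 := by
    rw [himg]
    have h1 := near N hN (AP a 1 L) hP (W1.image (fun s => t - s)) (hsepd W1 (filter_subset _ _))
      (N : ℝ) le_rfl (by
        intro s hs
        rw [mem_image] at hs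
        obtain ⟨r, hr, rfl⟩ := hs
        rw [e12]
        exact (mem_filter.1 hr).2)
    refine h1.trans ?_
    have h2 : √((AP a 1 L).card : ℝ) ≤ 2 * X ^ 4 := by
      rw [Real.sqrt_le_left (by positivity)]
      calc ((AP a 1 L).card : ℝ) ≤ L := by exact_mod_cast card_AP a 1 L
        _ ≤ 2 * X ^ 7 := hL2
        _ ≤ 4 * X ^ 8 := by
            have : X ^ 7 ≤ X ^ 8 := pow_le_pow_right₀ hX (by norm_num)
            have : 0 < X ^ 8 := by positivity
            linarith
        _ = _ := by ring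
    calc 10 * (N : ℝ) * lg ^ 2 * √((AP a 1 L).card : ℝ) ≤ 10 * (N : ℝ) * lg ^ 2 * (2 * X ^ 4) := by
          gcongr
      _ = _ := by rw [e12]; ring
  have s2 : ∑ s ∈ W'.filter (fun s => |t - s| ≤ X ^ 14), ‖∑ n ∈ AP a 1 L, ph (t - s) n‖ ≤
      5400000 * lg * X ^ 16 := by
    rw [himg]
    have h1 := mid hX e12 hN10 hNa haL hL1 hL2
      ((W'.filter (fun s => |t - s| ≤ X ^ 14)).image (fun s => t - s))
      (hsepd _ ((filter_subset _ _).trans (filter_subset _ _))) (by
        intro s hs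
        rw [mem_image] at hs
        obtain ⟨r, hr, rfl⟩ := hs
        rw [mem_filter] at hr
        have h3 := (mem_filter.1 hr.1).2
        push Not at h3
        exact ⟨h3.le, hr.2⟩)
    refine le_trans (le_of_eq ?_) h1
    apply sum_congr rfl
    intro s _
    rw [sum_AP a 1 L le_rfl]
  have s3 : ∑ s ∈ W'.filter (fun s => ¬ |t - s| ≤ X ^ 14), ‖∑ n ∈ AP a 1 L, ph (t - s) n‖ ≤
      W.card * (10 ^ 6 * lg * X ^ 5) := by
    have h3 : ∀ s ∈ W'.filter (fun s => ¬ |t - s| ≤ X ^ 14), ‖∑ n ∈ AP a 1 L, ph (t - s) n‖ ≤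
        10 ^ 6 * lg * X ^ 5 := by
      intro s hs
      rw [mem_filter, not_le] at hs
      have hsW : s ∈ W := (mem_filter.1 hs.1).1
      rw [hker, ← e5]
      apply kerP N a L hN hNa haL hL
      · rw [e14]
        exact hs.2.le
      · have a1 := hWT t ht
        have a2 := hWT s hsW
        refine le_trans ?_ hT
        rw [abs_le]
        constructor <;> linarith
    refine (sum_le_card_nsmul _ _ _ h3).trans ?_
    rw [nsmul_eq_mul]
    have : ((W'.filter (fun s => ¬ |t - s| ≤ X ^ 14)).card : ℝ) ≤ W.card := by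
      exact_mod_cast (card_filter_le _ _).trans (card_filter_le _ _)
    gcongr
  rw [← sum_filter_add_sum_filter_not W (fun s => |t - s| ≤ X ^ 12)]
  rw [← hW1, ← hW', ← sum_filter_add_sum_filter_not W' (fun s => |t - s| ≤ X ^ 14)]
  have hlg2 : lg ≤ lg ^ 2 := by nlinarith
  have h16 : 0 < X ^ 16 := by positivity
  have h5 : 0 ≤ (W.card : ℝ) * X ^ 5 := by positivity
  calc _ ≤ 20 * lg ^ 2 * X ^ 16 + (5400000 * lg * X ^ 16 + W.card * (10 ^ 6 * lg * X ^ 5)) :=
        add_le_add s1 (add_le_add s2 s3)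
    _ = 20 * lg ^ 2 * X ^ 16 + 5400000 * lg * X ^ 16 + 10 ^ 6 * lg * (W.card * X ^ 5) := by ring
    _ ≤ 20 * lg ^ 2 * X ^ 16 + 5400000 * lg ^ 2 * X ^ 16 + 10 ^ 6 * lg ^ 2 * (W.card * X ^ 5) := by
        gcongr
    _ ≤ _ := by nlinarith [mul_pos (show 0 < lg ^ 2 by positivity) h16,
        mul_nonneg (show 0 ≤ lg ^ 2 by positivity) h5]

end Pool.Agent.H73.GS
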